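import Pool.Agent.H.MP_830e61_lc.N3.Up

/-!
# The letters before the first `c` act in the same way

`y i = if i = c then f else a i`; all `y i` are idempotent and `f * y i * f = f` (`f * a i * f = f`:
`f * a i * f = (f * e) * a i * f`; with `g = e * a i * f`: `g = e`, since `f = f * e`, so `e * a i * f = e * a i * (f * e)` and
by `Words_cl`-like closure `e * (a i * f) * e = e` because `e * a i * e = e` and `e * f * e = e`; then
`f * a i * f = f * (e * a i * f) = f * e = f`, here `e * (a i * f) = e * (a i * f) * e` as `f * e = f`).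
Closure (private `Words_cl` in VS/Words.lean, copy it): in a semigroup with `IdemClosed`, for idempotents `w w' a` with
`a * w * a = a`, `a * w' * a = a`: `a * (w * w') * a = a`. Hence `f * lift y w * f = f` for all words `w` (induction; `lift y w` is
idempotent). So for a list `l`: `f * l.foldr (fun i s => y i * s) f = f`, and for `letters w = p ++ rest`, `p = bef c w`, with
`rest = []` or `rest = c :: r`: `lift y w * f = (letters w).foldr (fun i s => y i * s) f = p.foldr (..) (rest.foldr (..) f) =
p.foldr (fun i s => y i * s) f`, and `y i = a i` on `p` (no member of `p` is `c`: `List.mem_takeWhile_imp`).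
Apply `h w hw y` and multiply with `f`.
-/

set_option autoImplicit false

namespace Pool.Agent.H.MP_830e61_lc.N3

open Pool.Agent.H.MP_830e61_lc Pool.Agent.H.MP_830e61_lc.VS

/-- idempotents `w` with `a * w * a = a` are closed under products -/
theorem cl_mul {T : Type*} [Semigroup T] (hc : IdemClosed T) {w w' a : T} (hw : w * w = w)
    (hw' : w' * w' = w') (ha : a * a = a) (h1 : a * w * a = a) (h2 : a * w' * a = a) :
    a * (w * w') * a = a := by
  have e1 : (a * w) * (a * w) = a * w := hc a w ha hw
  have e2 : (w' * (a * w)) * (w' * (a * w)) = w' * (a * w) := hc w' (a * w) hw' e1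
  have k3 : a * (w' * a * w) * a = a := by
    calc a * (w' * a * w) * a = (a * w' * a) * (w * a) := by simp only [mul_assoc]
      _ = a * w * a := by rw [h2, ← mul_assoc]
      _ = a := h1
  have k4 : a * ((w' * a * w) * (w' * a * w)) * a = a * (w' * a * w) * a := by
    have : (w' * a * w) * (w' * a * w) = w' * a * w := by
      have := e2
      simp only [mul_assoc] at this ⊢
      exact this
    rw [this]
  have k5 : a * ((w' * a * w) * (w' * a * w)) * a = a * (w * w') * a := by
    calc a * ((w' * a * w) * (w' * a * w)) * a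
        = (a * w' * a) * (w * w') * (a * w * a) := by simp only [mul_assoc]
      _ = a * (w * w') * a := by rw [h2, h1]
  rw [← k5, k4, k3]

private theorem Act_foldl {T : Type*} [Semigroup T] (y : ℕ → T) (f : T) (l : List ℕ) (s : T) :
    l.foldl (fun c j => c * y j) s * f = s * l.foldr (fun j t => y j * t) f := by
  induction l generalizing s with
  | nil => rfl
  | cons j l ih => rw [List.foldl_cons, List.foldr_cons, ih, mul_assoc]

private theorem Act_lift {T : Type*} [Semigroup T] (y : ℕ → T) (f : T) (w : FreeSemigroup ℕ) :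
    FreeSemigroup.lift y w * f = (letters w).foldr (fun j t => y j * t) f := by
  obtain ⟨i, l⟩ := w
  rw [FreeSemigroup.lift_mk_eq_foldl, Act_foldl]
  rfl

private theorem Act_abs {T : Type*} [Semigroup T] (hc : IdemClosed T) {y : ℕ → T} {f : T}
    (hf : f * f = f) (hy : ∀ i, y i * y i = y i) (hfy : ∀ i, f * y i * f = f) (l : List ℕ) :
    l.foldr (fun j t => y j * t) f * f = l.foldr (fun j t => y j * t) f ∧
      f * l.foldr (fun j t => y j * t) f = f := by
  induction l with
  | nil => exact ⟨hf, hf⟩
  | cons i l ih =>
    obtain ⟨h1, h2⟩ := ih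
    rw [List.foldr_cons]
    generalize l.foldr (fun j t => y j * t) f = g at h1 h2
    have h3 : y i * g * f = y i * g := by rw [mul_assoc, h1]
    have hg : g * g = g := by
      calc g * g = (g * f) * g := by rw [h1]
        _ = g * (f * g) := mul_assoc _ _ _
        _ = g := by rw [h2, h1]
    have h4 : f * g * f = f := by rw [h2, hf]
    have h5 := cl_mul hc (hy i) hg hf (hfy i) h4
    rw [mul_assoc, h3] at h5
    exact ⟨h3, h5⟩

private theorem Act_take {T : Type*} [Semigroup T] (hc : IdemClosed T) {y a : ℕ → T} {f : T}
    (hf : f * f = f) (hy : ∀ i, y i * y i = y i) (hfy : ∀ i, f * y i * f = f) {c : ℕ}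
    (hyc : y c = f) (hya : ∀ i, i ≠ c → y i = a i) (l : List ℕ) :
    l.foldr (fun j t => y j * t) f =
      (l.takeWhile (fun i => i ≠ c)).foldr (fun i s => a i * s) f := by
  induction l with
  | nil => rfl
  | cons i l ih =>
    by_cases hi : i = c
    · subst hi
      have h1 := (Act_abs hc hf hy hfy l).2
      have h2 : (i :: l).takeWhile (fun j => j ≠ i) = [] := by simp
      rw [h2, List.foldr_cons, hyc, h1]
      rfl
    · have h2 : (i :: l).takeWhile (fun j => j ≠ c) = i :: l.takeWhile (fun j => j ≠ c) := by
        simp [hi]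
      rw [h2, List.foldr_cons, List.foldr_cons, hya i hi, ih]

theorem act_eq {V : List Idty} {w : Idty} (hw : w ∈ V) (c : ℕ) {T : Type} [Semigroup T]
    (hc : IdemClosed T) (h : Sat V T) {a : ℕ → T} (ha : ∀ i, a i * a i = a i) {e f : T}
    (he : e * e = e) (hf : f * f = f) (hae : ∀ i, e * a i * e = e) (hfe : f * e = f)
    (hef : e * f = e) :
    (bef c w.1).foldr (fun i s => a i * s) f = (bef c w.2).foldr (fun i s => a i * s) f := by
  have hfa : ∀ i, f * a i * f = f := by
    intro i
    have h1 := cl_mul hc (ha i) hf he (hae i) (by rw [hef, he])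
    have h3 : e * (a i * f) * e = e * (a i * f) := by rw [mul_assoc, mul_assoc, hfe]
    have h2 : e * (a i * f) = e := by rw [← h3, h1]
    calc f * a i * f = (f * e) * a i * f := by rw [hfe]
      _ = f * (e * (a i * f)) := by simp only [mul_assoc]
      _ = f := by rw [h2, hfe]
  obtain ⟨y, hyd⟩ : ∃ y : ℕ → T, y = fun i => if i = c then f else a i := ⟨_, rfl⟩
  have hyc : y c = f := by rw [hyd]; exact if_pos rfl
  have hya : ∀ i, i ≠ c → y i = a i := fun i hi => by rw [hyd]; exact if_neg hi
  have hy : ∀ i, y i * y i = y i := by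
    intro i
    by_cases hi : i = c
    · rw [hi, hyc, hf]
    · rw [hya i hi, ha]
  have hfy : ∀ i, f * y i * f = f := by
    intro i
    by_cases hi : i = c
    · rw [hi, hyc, hf, hf]
    · rw [hya i hi, hfa]
  have h1 := congrArg (fun s => s * f) (h w hw y hy)
  simp only [Act_lift] at h1
  rw [Act_take hc hf hy hfy hyc hya, Act_take hc hf hy hfy hyc hya] at h1
  exact h1

end Pool.Agent.H.MP_830e61_lc.N3
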