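import Pool.Agent.H.MP_830e61_lc.N3.Defs

/-!
# Products and the bound

`bd_arith`: `(n + 1) * n ^ n ≤ N`, `(n + 1) * k ≤ N` for `1 ≤ n`, `N = (n + 1) ^ (n + 1)`; `n = 0`: `k = 0`.
`bound n = ((N + 1) ^ N) ^ 2`.
-/

set_option autoImplicit false

namespace Pool.Agent.H.MP_830e61_lc.N3

open Pool.Agent.H.MP_830e61_lc

/-- products (the index type is finite) -/
theorem pi_orth {I : Type} [Finite I] (U : I → Type) [i : ∀ j, Semigroup (U j)]
    (h1 : ∀ j, Finite (U j)) (h3 : ∀ j, Regular (U j)) (h4 : ∀ j, IdemClosed (U j)) {b : ℕ}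
    (hb : ∀ j, Nat.card (U j) ≤ b) :
    Finite (∀ j, U j) ∧ Regular (∀ j, U j) ∧ IdemClosed (∀ j, U j) ∧
      Nat.card (∀ j, U j) ≤ b ^ Nat.card I := by
  classical
  have hf : ∀ j, Finite (U j) := h1
  refine ⟨inferInstance, ?_, ?_, ?_⟩
  · intro a
    choose x hx using fun j => h3 j (a j)
    exact ⟨x, funext fun j => hx j⟩
  · intro e f he hf'
    exact funext fun j => h4 j (e j) (f j) (congrFun he j) (congrFun hf' j)
  · letI := Fintype.ofFinite I
    rw [Nat.card_pi, Nat.card_eq_fintype_card]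
    exact Finset.prod_le_pow_card _ _ _ fun j _ => hb j

theorem bd_arith {n k : ℕ} (hk : k ≤ n) :
    (((n + 1) * n ^ n + 1) ^ (n + 1)) ^ k ≤ bound n := by
  have h1 : (n + 1) * n ^ n ≤ (n + 1) ^ (n + 1) := by
    rw [pow_succ' (n + 1) n]
    exact Nat.mul_le_mul_left _ (Nat.pow_le_pow_left (Nat.le_succ n) n)
  have h2 : (n + 1) * k ≤ (n + 1) ^ (n + 1) := by
    rw [pow_succ' (n + 1) n]
    refine Nat.mul_le_mul_left _ (hk.trans ?_)
    rcases Nat.eq_zero_or_pos n with h0 | h0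
    · rw [h0]
      exact Nat.zero_le _
    · exact (Nat.lt_pow_self (by omega : 1 < n + 1)).le
  have h3 : (((n + 1) * n ^ n + 1) ^ (n + 1)) ^ k ≤
      ((n + 1) ^ (n + 1) + 1) ^ ((n + 1) ^ (n + 1)) := by
    rw [← pow_mul]
    exact (Nat.pow_le_pow_left (Nat.succ_le_succ h1) _).trans
      (Nat.pow_le_pow_right (Nat.succ_pos _) h2)
  refine h3.trans ?_
  exact Nat.le_self_pow (by norm_num) _

end Pool.Agent.H.MP_830e61_lc.N3
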