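import Pool.Agent.H.MP_830e61_lc.N3.Defs

/-!
# The band of the labels

The maps `Ω → Ω` which are constant or fix the complement of `M` and move elements of `M` only into
the complement of `M`.
-/

set_option autoImplicit false

namespace Pool.Agent.H.MP_830e61_lc.N3

open Pool.Agent.H.MP_830e61_lc

/-- The labels. -/
def Bd {Ω : Type*} (M : Set Ω) : Type _ :=
  {f : Ω → Ω // (∃ c, ∀ ω, f ω = c) ∨ ((∀ ω, ω ∉ M → f ω = ω) ∧ ∀ ω, f ω = ω ∨ f ω ∉ M)}

variable {Ω : Type*} {M : Set Ω}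

instance : Semigroup (Bd M) where
  mul f g := ⟨fun ω => f.1 (g.1 ω), by
    rcases f.2 with ⟨c, hc⟩ | ⟨h1, h2⟩
    · exact Or.inl ⟨c, fun ω => hc _⟩
    · rcases g.2 with ⟨c, hc⟩ | ⟨h3, h4⟩
      · exact Or.inl ⟨f.1 c, fun ω => congrArg f.1 (hc ω)⟩
      · refine Or.inr ⟨fun ω hω => (congrArg f.1 (h3 ω hω)).trans (h1 ω hω), fun ω => ?_⟩
        rcases h4 ω with h | h
        · have h5 : f.1 (g.1 ω) = f.1 ω := congrArg f.1 h
          exact (h2 ω).imp (fun h6 => h5.trans h6) (fun h6 h7 => h6 (h5 ▸ h7))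
        · have h5 : f.1 (g.1 ω) = g.1 ω := h1 _ h
          exact Or.inr (fun h7 => h (h5 ▸ h7))⟩
  mul_assoc f g h := rfl

theorem Bd.idem (f : Bd M) : f * f = f := by
  refine Subtype.ext (funext fun ω => ?_)
  have key : f.1 (f.1 ω) = f.1 ω := by
    rcases f.2 with ⟨c, hc⟩ | ⟨h1, h2⟩
    · exact (hc _).trans (hc _).symm
    · rcases h2 ω with h | h
      · exact congrArg f.1 h
      · exact h1 _ h
  exact key

/-- constant maps -/
def Bd.cst (c : Ω) : Bd M := ⟨fun _ => c, Or.inl ⟨c, fun _ => rfl⟩⟩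

theorem Bd.cst_inj {c d : Ω} (h : (Bd.cst c : Bd M) = Bd.cst d) : c = d :=
  congrFun (congrArg Subtype.val h) c

theorem Bd.mul_cst (f : Bd M) (c : Ω) : f * Bd.cst c = Bd.cst (f.1 c) := rfl

instance [Finite Ω] : Finite (Bd M) := by
  unfold Bd
  infer_instance

theorem Bd.card [Finite Ω] : Nat.card (Bd M) ≤ Nat.card Ω ^ Nat.card Ω := by
  have h1 : Nat.card (Bd M) ≤ Nat.card (Ω → Ω) :=
    Nat.card_le_card_of_injective Subtype.val Subtype.val_injective
  rwa [Nat.card_fun] at h1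

end Pool.Agent.H.MP_830e61_lc.N3
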