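import Pool.Agent.H.MP_830e61_lc.N3.Rep
import Pool.Agent.H.MP_830e61_lc.N3.Ar

/-!
# A criterion

A finite semigroup with `S^3 = 0` embeds in an orthodox semigroup if and only if each of its nonzero
elements is separated from the zero by a homomorphism to an inverse semigroup.
-/

set_option autoImplicit false

namespace Pool.Agent.H.MP_830e61_lc.N3

open Pool.Agent.H.MP_830e61_lc Pool.Agent.H.MP_830e61_lc.VS

theorem crit (S : Type) [Semigroup S] [Finite S] (z : S) (hz : ∀ a b c : S, a * b * c = z) :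
    (∃ (T : Type) (_ : Semigroup T), Regular T ∧ IdemClosed T ∧
      ∃ φ : S →ₙ* T, Function.Injective φ) ↔
    ∀ s, s ≠ z → ∃ (J : Type) (_ : Semigroup J), Regular J ∧
      (∀ e f : J, e * e = e → f * f = f → e * f = f * e) ∧ ∃ ψ : S →ₙ* J, ψ s ≠ ψ z := by
  constructor
  · rintro ⟨T, iT, hr, hc, φ, hφ⟩ s hs
    obtain ⟨J, iJ, π, -, hJ1, hJ2, -, hJ3⟩ := gam_quot hr hc
    refine ⟨J, iJ, hJ1, hJ2, π.comp φ, fun h => hs ?_⟩
    have h0 : z * z = z := (nil3_zero hz z).1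
    have h1 : π (φ s) = π (φ z) := h
    have h2 : π (φ s) * π (φ s) = π (φ s) := by
      rw [h1, ← map_mul, ← map_mul, h0]
    have h3 : s * s = s := hφ (by rw [map_mul]; exact hJ3 _ h2)
    rw [← hz s s s, h3, h3]
  · intro h
    have h1 : ∀ s : {s // s ≠ z}, ∃ (T : Type) (_ : Semigroup T), Finite T ∧ Nonempty T ∧
        Regular T ∧ IdemClosed T ∧
        Nat.card T ≤ ((Nat.card S + 1) * Nat.card S ^ Nat.card S + 1) ^ (Nat.card S + 1) ∧
        ∃ Ψ : S →ₙ* T, ∀ c, Ψ c = Ψ s.1 → c = s.1 := by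
      rintro ⟨s, hs⟩
      obtain ⟨J, iJ, hJ1, hJ2, ψ, hψ⟩ := h s hs
      exact rep_one hz hJ1 hJ2 ψ s hψ
    choose U iU hf hn hr hc hb Ψ hΨ using h1
    obtain ⟨-, h3, h4, -⟩ := pi_orth U hf hr hc hb
    refine ⟨∀ j, U j, inferInstance, h3, h4, ⟨fun c j => Ψ j c, fun c d => ?_⟩, ?_⟩
    · funext j
      exact map_mul (Ψ j) c d
    · intro c d hcd
      by_cases hd : d = z
      · by_cases hc' : c = z
        · rw [hc', hd]
        · exact (hΨ ⟨c, hc'⟩ d (congrFun hcd ⟨c, hc'⟩).symm).symm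
      · exact hΨ ⟨d, hd⟩ c (congrFun hcd ⟨d, hd⟩)

end Pool.Agent.H.MP_830e61_lc.N3
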