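import Pool.Agent.H.MP_830e61_lc.N3.Up

/-!
# An identity whose sides have different orders of the last occurrences

Adapted from VS/Words.lean.
-/

set_option autoImplicit false

namespace Pool.Agent.H.MP_830e61_lc.N3

open Pool.Agent.H.MP_830e61_lc Pool.Agent.H.MP_830e61_lc.VS

section

variable {T : Type*} [Semigroup T]

private theorem CutW_step (a : T) (y : ℕ → T) (s : T) (l : List ℕ) :
    l.foldl (fun c i => c * y i) (a * s) = a * l.foldl (fun c i => c * y i) s := by
  induction l generalizing s with
  | nil => rfl
  | cons i l ih => rw [List.foldl_cons, List.foldl_cons, mul_assoc, ih]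

/-- left multiplication of the value of a word -/
private theorem CutW_val (a : T) (y : ℕ → T) (w : FreeSemigroup ℕ) :
    a * FreeSemigroup.lift y w = (letters w).foldl (fun c i => c * y i) a := by
  obtain ⟨i, l⟩ := w
  rw [FreeSemigroup.lift_mk_eq_foldl]
  change _ = l.foldl (fun c i => c * y i) (a * y i)
  rw [CutW_step]

/-- closure of `a w a = a` -/
private theorem CutW_cl (hc : IdemClosed T) {a w w' : T} (hw : w * w = w)
    (hw' : w' * w' = w') (ha : a * a = a) (h1 : a * w * a = a) (h2 : a * w' * a = a) :
    a * (w * w') * a = a := by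
  have e1 : (a * w) * (a * w) = a * w := hc a w ha hw
  have e2 : (w' * (a * w)) * (w' * (a * w)) = w' * (a * w) := hc w' (a * w) hw' e1
  have e3 : (w' * a) * (w' * a) = w' * a := hc w' a hw' ha
  have k1 : w' * w * (w' * w) = w' * w := hc w' w hw' hw
  have k2 : a * (w' * w * (w' * w)) * a = a * (w' * w) * a := by rw [k1]
  -- with `k = w' a w`
  have k3 : a * (w' * a * w) * a = a := by
    calc a * (w' * a * w) * a = (a * w' * a) * (w * a) := by simp only [mul_assoc]
      _ = a * w * a := by rw [h2, ← mul_assoc]
      _ = a := h1
  have k4 : a * ((w' * a * w) * (w' * a * w)) * a = a * (w' * a * w) * a := by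
    have : (w' * a * w) * (w' * a * w) = w' * a * w := by
      have := e2
      simp only [mul_assoc] at this ⊢
      exact this
    rw [this]
  have k5 : a * ((w' * a * w) * (w' * a * w)) * a = a * (w * w') * a := by
    calc a * ((w' * a * w) * (w' * a * w)) * a
        = (a * w' * a) * (w * w') * (a * w * a) := by simp only [mul_assoc]
      _ = a * (w * w') * a := by rw [h2, h1]
  rw [← k5, k4, k3]

end

/-- the states -/
private def CutW_St {T : Type*} [Semigroup T] (a h x s : T) : Prop :=
  s = a ∨ s = a * h ∨ s = a * h * x ∨ s = a * h * x * h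

section

variable {T : Type*} [Semigroup T]

private theorem CutW_core (hc : IdemClosed T) {a h x : T} (ha : a * a = a) (hh : h * h = h)
    (hx : x * x = x) (hax : a * x = a) (hah : a * h * a = a) {p q : ℕ} (hpq : p ≠ q) {y : ℕ → T}
    (hyp : y p = a) (hyq : y q = h) (hyo : ∀ i, i ≠ p → i ≠ q → y i = x)
    {U U' W W' : List ℕ} (hU' : ∀ i ∈ U', i ≠ p ∧ i ≠ q) (hW' : ∀ i ∈ W', i ≠ p ∧ i ≠ q) :
    (U ++ p :: U').foldl (fun c i => c * y i) a = a ∧
      ((W' = [] → (W ++ q :: W').foldl (fun c i => c * y i) a = a * h ∨
        (W ++ q :: W').foldl (fun c i => c * y i) a = a * h * x * h) ∧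
      (W' ≠ [] → (W ++ q :: W').foldl (fun c i => c * y i) a = a * h * x)) := by
  have haxa : a * x * a = a := by rw [hax, ha]
  have h1 : a * h * x * a = a := by
    have := CutW_cl hc hh hx ha hah haxa
    simpa only [mul_assoc] using this
  have hhx : (h * x) * (h * x) = h * x := hc h x hh hx
  have h2 : a * h * x * h * a = a := by
    have h3 : a * (h * x) * a = a := by simpa only [mul_assoc] using h1
    have := CutW_cl hc hhx hh ha h3 hah
    simpa only [mul_assoc] using this
  have hxh : a * h * x * h * x = a * h * x := by
    calc a * h * x * h * x = a * ((h * x) * (h * x)) := by simp only [mul_assoc]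
      _ = a * h * x := by rw [hhx, mul_assoc]
  -- the states are closed under the steps
  have hstep : ∀ (i : ℕ) (s : T), CutW_St a h x s → CutW_St a h x (s * y i) := by
    intro i s hs
    by_cases hip : i = p
    · subst hip
      rw [hyp]
      left
      rcases hs with rfl | rfl | rfl | rfl
      · exact ha
      · exact hah
      · exact h1
      · exact h2
    · by_cases hiq : i = q
      · subst hiq
        rw [hyq]
        rcases hs with rfl | rfl | rfl | rfl
        · exact Or.inr (Or.inl rfl)
        · right; left
          rw [mul_assoc, hh]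
        · exact Or.inr (Or.inr (Or.inr rfl))
        · right; right; right
          rw [mul_assoc, hh]
      · rw [hyo i hip hiq]
        rcases hs with rfl | rfl | rfl | rfl
        · exact Or.inl hax
        · exact Or.inr (Or.inr (Or.inl rfl))
        · right; right; left
          rw [mul_assoc, hx]
        · right; right; left
          exact hxh
  have hfold : ∀ (l : List ℕ) (s : T), CutW_St a h x s →
      CutW_St a h x (l.foldl (fun c i => c * y i) s) := by
    intro l
    induction l with
    | nil => exact fun s hs => hs
    | cons i l ih => exact fun s hs => ih _ (hstep i s hs)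
  -- steps by `x`
  have hfx : ∀ (l : List ℕ) (s : T), (∀ i ∈ l, i ≠ p ∧ i ≠ q) → s * x = s →
      l.foldl (fun c i => c * y i) s = s := by
    intro l
    induction l with
    | nil => exact fun s _ _ => rfl
    | cons i l ih =>
      intro s hl hs
      rw [List.foldl_cons, hyo i (hl i List.mem_cons_self).1 (hl i List.mem_cons_self).2, hs]
      exact ih s (fun j hj => hl j (List.mem_cons_of_mem _ hj)) hs
  constructor
  · rw [List.foldl_append, List.foldl_cons, hyp]
    have h3 : U.foldl (fun c i => c * y i) a * a = a := by
      have := hstep p _ (hfold U a (Or.inl rfl))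
      rcases hfold U a (Or.inl rfl) with h | h | h | h
      · rw [h, ha]
      · rw [h, hah]
      · rw [h, h1]
      · rw [h, h2]
    rw [h3]
    exact hfx U' a hU' hax
  · rw [List.foldl_append, List.foldl_cons, hyq]
    have h3 : W.foldl (fun c i => c * y i) a * h = a * h ∨
        W.foldl (fun c i => c * y i) a * h = a * h * x * h := by
      rcases hfold W a (Or.inl rfl) with h | h | h | h
      · left; rw [h]
      · left; rw [h, mul_assoc, hh]
      · right; rw [h]
      · right; rw [h, mul_assoc, hh]
    constructor
    · intro h4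
      rw [h4]
      exact h3
    · intro h4
      obtain ⟨i, l, rfl⟩ := List.exists_cons_of_ne_nil h4
      rw [List.foldl_cons, hyo i (hW' i List.mem_cons_self).1 (hW' i List.mem_cons_self).2]
      have h5 : W.foldl (fun c i => c * y i) a * h * x = a * h * x := by
        rcases h3 with h | h
        · rw [h]
        · rw [h, hxh]
      rw [h5]
      refine hfx l _ (fun j hj => hW' j (List.mem_cons_of_mem _ hj)) ?_
      rw [mul_assoc, hx]

end

/-! ### the combinatorics of last occurrences -/

private theorem CutW_diff {D D' : List ℕ} (hl : D.length = D'.length) (hne : D ≠ D') :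
    ∃ (A B C : List ℕ) (p q : ℕ), p ≠ q ∧ D = A ++ p :: C ∧ D' = B ++ q :: C := by
  induction D generalizing D' with
  | nil =>
    exfalso
    apply hne
    exact (List.length_eq_zero_iff.1 hl.symm).symm
  | cons i D ih =>
    cases D' with
    | nil => simp at hl
    | cons j D' =>
      by_cases h : D = D'
      · subst h
        refine ⟨[], [], D, i, j, ?_, rfl, rfl⟩
        rintro rfl
        exact hne rfl
      · obtain ⟨A, B, C, p, q, h1, h2, h3⟩ := ih (by simpa using hl) h
        exact ⟨i :: A, j :: B, C, p, q, h1, by rw [h2]; rfl, by rw [h3]; rfl⟩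

private theorem CutW_dedup {l A C : List ℕ} {p : ℕ} (h : l.dedup = A ++ p :: C) :
    ∃ L L' : List ℕ, l = L ++ p :: L' ∧ L'.dedup = C := by
  induction l generalizing A with
  | nil => simp at h
  | cons i l ih =>
    by_cases hi : i ∈ l
    · rw [List.dedup_cons_of_mem hi] at h
      obtain ⟨L, L', h1, h2⟩ := ih h
      exact ⟨i :: L, L', by rw [h1]; rfl, h2⟩
    · rw [List.dedup_cons_of_notMem hi] at h
      cases A with
      | nil =>
        rw [List.nil_append, List.cons.injEq] at h
        exact ⟨[], l, by rw [h.1]; rfl, h.2⟩
      | cons j A =>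
        rw [List.cons_append, List.cons.injEq] at h
        obtain ⟨L, L', h1, h2⟩ := ih h.2
        exact ⟨i :: L, L', by rw [h1]; rfl, h2⟩

private theorem CutW_split {l l' : List ℕ} (hm : ∀ i, i ∈ l ↔ i ∈ l')
    (hne : l.dedup ≠ l'.dedup) :
    ∃ (p q : ℕ) (U U' W W' : List ℕ), p ≠ q ∧ l = U ++ p :: U' ∧ l' = W ++ q :: W' ∧
      (∀ i ∈ U', i ≠ p ∧ i ≠ q) ∧ (∀ i ∈ W', i ≠ p ∧ i ≠ q) ∧ (U' = [] ↔ W' = []) := by
  have hperm : l.dedup.Perm l'.dedup := by
    rw [List.perm_ext_iff_of_nodup l.nodup_dedup l'.nodup_dedup]
    intro i
    rw [List.mem_dedup, List.mem_dedup, hm]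
  obtain ⟨A, B, C, p, q, hpq, h1, h2⟩ := CutW_diff hperm.length_eq hne
  obtain ⟨U, U', e1, e2⟩ := CutW_dedup h1
  obtain ⟨W, W', e3, e4⟩ := CutW_dedup h2
  have hpC : p ∉ C := by
    have h3 := l.nodup_dedup
    rw [h1] at h3
    have h4 := (List.nodup_append.1 h3).2.1
    exact (List.nodup_cons.1 h4).1
  have hqC : q ∉ C := by
    have h3 := l'.nodup_dedup
    rw [h2] at h3
    have h4 := (List.nodup_append.1 h3).2.1
    exact (List.nodup_cons.1 h4).1
  have hU : ∀ i, i ∈ U' ↔ i ∈ C := fun i => by rw [← e2, List.mem_dedup]
  have hW : ∀ i, i ∈ W' ↔ i ∈ C := fun i => by rw [← e4, List.mem_dedup]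
  refine ⟨p, q, U, U', W, W', hpq, e1, e3, ?_, ?_, ?_⟩
  · intro i hi
    rw [hU] at hi
    exact ⟨fun h => hpC (h ▸ hi), fun h => hqC (h ▸ hi)⟩
  · intro i hi
    rw [hW] at hi
    exact ⟨fun h => hpC (h ▸ hi), fun h => hqC (h ▸ hi)⟩
  · rw [List.eq_nil_iff_forall_not_mem, List.eq_nil_iff_forall_not_mem]
    constructor
    · intro h i hi
      exact h i ((hU i).2 ((hW i).1 hi))
    · intro h i hi
      exact h i ((hW i).2 ((hU i).1 hi))

/-- the two sides of the identity have the same letters, in different orders of last occurrences -/
theorem cutL_ne {w : Idty} (hm : ∀ i, i ∈ letters w.1 ↔ i ∈ letters w.2)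
    (hne : (letters w.1).dedup ≠ (letters w.2).dedup)
    {T : Type*} [Semigroup T] (hc : IdemClosed T) (h : Sat [w] T) : CutL T := by
  classical
  have hw : w ∈ [w] := List.mem_cons_self
  obtain ⟨p, q, U, U', W, W', hpq, e1, e2, hU', hW', hnil⟩ := CutW_split hm hne
  intro a g x ha hg hx hax hag
  by_cases hW0 : W' = []
  · -- substitute `a` for the other letters
    let y : ℕ → T := fun i => if i = p then a else if i = q then g else a
    have hy : ∀ i, y i * y i = y i := by
      intro i
      change (if i = p then a else if i = q then g else a) *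
        (if i = p then a else if i = q then g else a) =
          (if i = p then a else if i = q then g else a)
      split_ifs
      · exact ha
      · exact hg
      · exact ha
    have hyp : y p = a := if_pos rfl
    have hyq : y q = g := by
      change (if q = p then a else if q = q then g else a) = g
      rw [if_neg hpq.symm, if_pos rfl]
    have hyo : ∀ i, i ≠ p → i ≠ q → y i = a := by
      intro i h1 h2
      change (if i = p then a else if i = q then g else a) = a
      rw [if_neg h1, if_neg h2]
    obtain ⟨k1, k2, -⟩ := CutW_core hc ha hg ha ha hag hpq hyp hyq hyo (U := U) (W := W) hU' hW'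
    have h3 := congrArg (fun t => a * t) (h w hw y hy)
    simp only [CutW_val] at h3
    rw [e1, e2, k1] at h3
    have h4 : a = a * g := by
      rcases k2 hW0 with h5 | h5
      · rw [h5] at h3
        exact h3
      · rw [h5, hag] at h3
        exact h3
    rw [← h4, hax]
  · let y : ℕ → T := fun i => if i = p then a else if i = q then g else x
    have hy : ∀ i, y i * y i = y i := by
      intro i
      change (if i = p then a else if i = q then g else x) *
        (if i = p then a else if i = q then g else x) =
          (if i = p then a else if i = q then g else x)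
      split_ifs
      · exact ha
      · exact hg
      · exact hx
    have hyp : y p = a := if_pos rfl
    have hyq : y q = g := by
      change (if q = p then a else if q = q then g else x) = g
      rw [if_neg hpq.symm, if_pos rfl]
    have hyo : ∀ i, i ≠ p → i ≠ q → y i = x := by
      intro i h1 h2
      change (if i = p then a else if i = q then g else x) = x
      rw [if_neg h1, if_neg h2]
    obtain ⟨k1, -, k2⟩ := CutW_core hc ha hg hx hax hag hpq hyp hyq hyo (U := U) (W := W) hU' hW'
    have h3 := congrArg (fun t => a * t) (h w hw y hy)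
    simp only [CutW_val] at h3
    rw [e1, e2, k1, k2 hW0] at h3
    exact h3.symm

end Pool.Agent.H.MP_830e61_lc.N3
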