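import Pool.Agent.H.MP_830e61_lc.N3.Defs
import Pool.Agent.H.MP_830e61_lc.VS.Ops2

/-!
# The condition `S^3 = 0` is decidable

`nil_iff`: `IsTable L T` gives `e : Fin L.length ≃ T` with `entry L i j = e.symm (e i * e j)` (see the proofs of
`rec_R`, `rec_S` in VS/Frm.lean). `rec_nil`: `Φ` recursive; the predicate is the conjunction with `nilF.ev L []`
(`Fm.computable`, `ComputablePred.and` or the like); a table determines the semigroup up to isomorphism, but here
no invariance of `Φ` is needed, because the same `T` is used (`nil_iff` for this `T`; `nilF` does not depend on it).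
`rec_all`: formula for semigroup tables (`rowF`, `sgF`, `finSg`, `FinT`, `finT` in Final.lean / VS/Frm.lean) and `nilF`.
-/

set_option autoImplicit false

namespace Pool.Agent.H.MP_830e61_lc.N3

open Pool.Agent.H.MP_830e61_lc Pool.Agent.H.MP_830e61_lc.VS

/-- `S^3 = 0` as a formula -/
def nilF : Fm := .ex .len (.all .len (.all .len (.all .len
  (.eq (.tab (.tab (.var 2) (.var 1)) (.var 0)) (.var 3)))))

theorem nilF_ev (L : List (List ℕ)) : nilF.ev L [] ↔
    ∃ z < L.length, ∀ a < L.length, ∀ b < L.length, ∀ c < L.length,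
      entry L (entry L a b) c = z := by
  unfold nilF
  simp only [Fm.ev, Tm.ev, List.getD_cons_zero, List.getD_cons_succ]

/-- tables of 3-nilpotent semigroups -/
theorem nil_iff {L : List (List ℕ)} {T : Type} [Semigroup T] (h : IsTable L T) :
    nilF.ev L [] ↔ Nil3 T := by
  obtain ⟨-, e, he'⟩ := h
  have he : ∀ i j : Fin L.length, entry L i.1 j.1 = (e.symm (e i * e j)).val := he'
  have hlt : ∀ i < L.length, ∀ j < L.length, entry L i j < L.length := by
    intro i hi j hj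
    have h1 := he ⟨i, hi⟩ ⟨j, hj⟩
    simp only at h1
    rw [h1]
    exact (e.symm _).2
  have hm : ∀ i j : Fin L.length, e ⟨entry L i.1 j.1, hlt _ i.2 _ j.2⟩ = e i * e j := by
    intro i j
    have h1 : (⟨entry L i.1 j.1, hlt _ i.2 _ j.2⟩ : Fin L.length) = e.symm (e i * e j) :=
      Fin.ext (he i j)
    rw [h1, Equiv.apply_symm_apply]
  rw [nilF_ev]
  constructor
  · rintro ⟨z, hz, h1⟩
    refine ⟨e ⟨z, hz⟩, fun a b c => ?_⟩
    obtain ⟨i, rfl⟩ := e.surjective a
    obtain ⟨j, rfl⟩ := e.surjective b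
    obtain ⟨k, rfl⟩ := e.surjective c
    rw [← hm, ← hm, e.apply_eq_iff_eq, Fin.ext_iff]
    exact h1 _ i.2 _ j.2 _ k.2
  · rintro ⟨z, h1⟩
    refine ⟨(e.symm z).val, (e.symm z).2, fun a ha b hb c hc => ?_⟩
    have h2 := h1 (e ⟨a, ha⟩) (e ⟨b, hb⟩) (e ⟨c, hc⟩)
    rw [← hm, ← hm, ← e.eq_symm_apply, Fin.ext_iff] at h2
    exact h2

private theorem DecA_and {p q : List (List ℕ) → Prop} (hp : ComputablePred p)
    (hq : ComputablePred q) : ComputablePred fun L => p L ∧ q L := by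
  classical
  obtain ⟨h1, h1'⟩ := hp
  obtain ⟨h2, h2'⟩ := hq
  refine ⟨inferInstance, ?_⟩
  refine (Primrec.and.to_comp.comp h1' h2').of_eq fun L => ?_
  simp only [Bool.decide_and]

theorem rec_nil {Φ : SgClass} (h : Recursive Φ) : Recursive (nil3 Φ) := by
  refine (DecA_and h nilF.computable).of_eq fun L => ?_
  constructor
  · rintro ⟨⟨T, i, h1, h2⟩, h3⟩
    exact ⟨T, i, ⟨h1, (nil_iff h2).1 h3⟩, h2⟩
  · rintro ⟨T, i, ⟨h1, h3⟩, h2⟩
    exact ⟨⟨T, i, h1, h2⟩, (nil_iff h2).2 h3⟩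

/-- all finite nonempty 3-nilpotent semigroups -/
theorem rec_all : Recursive (fun T i => Finite T ∧ Nonempty T ∧ @Nil3 T i) := by
  refine ((Fm.and (Fm.and rowF sgF) nilF).computable).of_eq fun L => ?_
  simp only [Fm.ev, rowF_ev, sgF_ev]
  constructor
  · rintro ⟨⟨h1, hn, hlt, hassoc⟩, h3⟩
    let _ := finSg L.length (entry L) hlt hassoc
    have h2 : IsTable L (FinT L.length) := ⟨h1, finT _, fun i j => rfl⟩
    exact ⟨FinT L.length, inferInstance, ⟨Finite.of_equiv _ (finT L.length),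
      ⟨finT L.length ⟨0, hn⟩⟩, (nil_iff h2).1 h3⟩, h2⟩
  · rintro ⟨T, i, ⟨-, ⟨t0⟩, h3⟩, h2⟩
    refine ⟨?_, (nil_iff h2).2 h3⟩
    obtain ⟨h1, e, he'⟩ := h2
    have he : ∀ i j : Fin L.length, entry L i.1 j.1 = (e.symm (e i * e j)).val := he'
    have hlt : ∀ i < L.length, ∀ j < L.length, entry L i j < L.length := by
      intro i hi j hj
      have h4 := he ⟨i, hi⟩ ⟨j, hj⟩
      simp only at h4
      rw [h4]
      exact (e.symm _).2
    have hm : ∀ i j : Fin L.length, e ⟨entry L i.1 j.1, hlt _ i.2 _ j.2⟩ = e i * e j := by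
      intro i j
      have h4 : (⟨entry L i.1 j.1, hlt _ i.2 _ j.2⟩ : Fin L.length) = e.symm (e i * e j) :=
        Fin.ext (he i j)
      rw [h4, Equiv.apply_symm_apply]
    refine ⟨h1, Fin.pos (e.symm t0), hlt, fun i hi j hj k hk => ?_⟩
    have h4 := mul_assoc (e ⟨i, hi⟩) (e ⟨j, hj⟩) (e ⟨k, hk⟩)
    rw [← hm, ← hm, ← hm, ← hm, e.apply_eq_iff_eq, Fin.ext_iff] at h4
    exact h4

end Pool.Agent.H.MP_830e61_lc.N3
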