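import Pool.Agent.H.MP_830e61_lc.N3.PI

/-!
# Divisors

Every finite 3-nilpotent semigroup `S` is a quotient of the free 3-nilpotent semigroup
`Fr S = {words of length 1 and 2} ∪ {0}`, which embeds in `PI X Unit`, `X` the words of length at most `2`.
-/

set_option autoImplicit false

namespace Pool.Agent.H.MP_830e61_lc.N3

open Pool.Agent.H.MP_830e61_lc

/-- The free 3-nilpotent semigroup on `S`: `none` is the zero. -/
def Fr (S : Type) : Type := Option (S ⊕ S × S)

variable {S : Type}

/-- the product -/
def Fr.mul : Fr S → Fr S → Fr S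
  | some (Sum.inl a), some (Sum.inl b) => some (Sum.inr (a, b))
  | _, _ => none

instance : Semigroup (Fr S) where
  mul := Fr.mul
  mul_assoc a b c := by
    rcases a with _ | (a | a) <;> rcases b with _ | (b | b) <;> rcases c with _ | (c | c) <;> rfl

/-- the value of a word -/
private def Hs_ev [Mul S] (z : S) : Fr S → S
  | none => z
  | some (Sum.inl a) => a
  | some (Sum.inr p) => p.1 * p.2

/-- the evaluation -/
theorem Fr_surj [Semigroup S] (h : Nil3 S) : ∃ f : Fr S →ₙ* S, Function.Surjective f := by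
  obtain ⟨z, hz⟩ := h
  have h0 : ∀ x : S, z * x = z ∧ x * z = z := nil3_zero hz
  refine ⟨⟨Hs_ev z, ?_⟩, fun a => ⟨some (Sum.inl a), rfl⟩⟩
  rintro (_ | (a | ⟨a, b⟩)) (_ | (c | ⟨c, d⟩))
  · exact (h0 z).1.symm
  · exact (h0 c).1.symm
  · exact (h0 (c * d)).1.symm
  · exact (h0 a).2.symm
  · rfl
  · show z = a * (c * d)
    rw [← mul_assoc, hz]
  · exact (h0 (a * b)).2.symm
  · exact (hz a b c).symm
  · exact (hz a b (c * d)).symm

/-- the words act on the words of length at most two by right multiplication -/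
private def Hs_act : Fr S → Option (S ⊕ S × S) → Option (Option (S ⊕ S × S) × Unit)
  | some (Sum.inl a), none => some (some (Sum.inl a), ())
  | some (Sum.inl a), some (Sum.inl b) => some (some (Sum.inr (b, a)), ())
  | some (Sum.inr p), none => some (some (Sum.inr p), ())
  | _, _ => none

private theorem Hs_inj (u : Fr S) (m m' y : Option (S ⊕ S × S)) (b b' : Unit)
    (h1 : Hs_act u m = some (y, b)) (h2 : Hs_act u m' = some (y, b')) : m = m' := by
  have h3 : (Hs_act u m).map Prod.fst = (Hs_act u m').map Prod.fst := by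
    rw [h1, h2]
  have h4 : (Hs_act u m).isSome = true := by
    rw [h1]
    rfl
  clear h1 h2
  rcases u with _ | (a | a) <;> rcases m with _ | (m | m) <;> rcases m' with _ | (m' | m') <;>
    simp_all [Hs_act]

private theorem Hs_mul (u v : Fr S) : Hs_act (u * v) = PI.cmp (Hs_act u) (Hs_act v) := by
  funext m
  rcases u with _ | (a | a) <;> rcases v with _ | (b | b) <;> rcases m with _ | (m | m) <;> rfl

private theorem Hs_none (u v : Fr S) (h : Hs_act u none = Hs_act v none) : u = v := by
  rcases u with _ | (a | a) <;> rcases v with _ | (b | b) <;> simp_all [Hs_act] <;> rfl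

/-- the action on the words of length at most two (`none` is the empty word) -/
theorem Fr_emb (S : Type) : ∃ f : Fr S →ₙ* PI (Option (S ⊕ S × S)) Unit, Function.Injective f :=
  ⟨⟨fun u => ⟨Hs_act u, fun m m' y b b' => Hs_inj u m m' y b b'⟩,
    fun u v => Subtype.ext (Hs_mul u v)⟩,
    fun u v h => Hs_none u v (congrFun (congrArg Subtype.val h) none)⟩

theorem hs3 (S : Type) [i : Semigroup S] [Finite S] [Nonempty S] (h : Nil3 S) :
    opH (opS OO) S i := by
  obtain ⟨f, hf⟩ := Fr_surj h
  obtain ⟨g, hg⟩ := Fr_emb S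
  have hB : ∀ b : Unit, b * b = b := fun b => rfl
  exact ⟨Fr S, inferInstance, ⟨⟨none⟩, PI (Option (S ⊕ S × S)) Unit, inferInstance,
    ⟨inferInstance, ⟨g none⟩, PI.regular hB, PI.closed hB⟩, g, hg⟩, f, hf⟩

end Pool.Agent.H.MP_830e61_lc.N3
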