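import Pool.Agent.H.MP_830e61_lc.N3.Emb
import Pool.Agent.H.MP_830e61_lc.N3.Hs
import Pool.Agent.H.MP_830e61_lc.N3.DecA

/-!
# Decidability

`rec_S3`: copy of the proof of `rec_S` (VS/Frm.lean) for `V = []` with the formula `.and (Frm_fS []) nilF`, `emb3`
instead of `hV` (`bound n ≤ bnd n`). `main3`: `OO = RVs []` (`OO_eq`); the three cases as in `main`, `main_iff` (VS/Ops2.lean):
`K` without `S`: `birkhoff K OO = OO`, `K` with `S`, no `H` after `S`: `opS OO` (the private theorems `birkhoff_noSs`,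
`birkhoff_Ss` of VS/Ops2.lean have to be copied), else `opH (opS OO)` (`birkhoff_HS`), and `nil3 (opH (opS OO))` is the class of `rec_all`
by `hs3`.
-/

set_option autoImplicit false

namespace Pool.Agent.H.MP_830e61_lc.N3

open Pool.Agent.H.MP_830e61_lc Pool.Agent.H.MP_830e61_lc.VS

theorem rec_S3 : Recursive (nil3 (opS OO)) := by
  rw [OO_eq]
  refine ((Fm.and (Frm_fS []) nilF).computable).of_eq ?_
  intro L
  show (Frm_fS []).ev L [] ∧ nilF.ev L [] ↔ _
  rw [Frm_fS_ev]
  constructor
  · rintro ⟨⟨h1, ⟨hn, hlt, hassoc⟩, m, -, c, -, d, -, h3⟩, hN⟩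
    let _ := finSg L.length (entry L) hlt hassoc
    obtain ⟨U, iU, hU, f, hf, hinj⟩ := Frm_of_Emb h3
    have ht : IsTable L (FinT L.length) := ⟨h1, finT _, fun i j => rfl⟩
    refine ⟨FinT L.length, inferInstance, ⟨⟨⟨⟨0, hn⟩⟩, U, iU, hU,
      ⟨fun i => f i.1, fun i j => hf _ i.2 _ j.2⟩, ?_⟩, (nil_iff ht).1 hN⟩, ht⟩
    intro i j h
    exact FinT.ext' (hinj _ i.2 _ j.2 h)
  · rintro ⟨T, i, ⟨⟨⟨t0⟩, U, iU, ⟨hUf, hUn, hU1, hU2, hU3⟩, φ, hφ⟩, hnil⟩, ht⟩
    refine ⟨?_, (nil_iff ht).2 hnil⟩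
    obtain ⟨h2, e, he⟩ := ht
    have : Finite T := Finite.of_equiv _ e
    have hn : 0 < L.length := Fin.pos (e.symm t0)
    have hlt : ∀ i < L.length, ∀ j < L.length, entry L i j < L.length := by
      intro i hi j hj
      have := he ⟨i, hi⟩ ⟨j, hj⟩
      show (L.getD i []).getD j 0 < _
      simp only at this
      rw [this]; exact (e.symm _).2
    have hm : ∀ i j : Fin L.length, e ⟨entry L i.1 j.1, hlt _ i.2 _ j.2⟩ = e i * e j := by
      intro i j
      have : (⟨entry L i.1 j.1, hlt _ i.2 _ j.2⟩ : Fin L.length) = e.symm (e i * e j) :=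
        Fin.ext (he i j)
      rw [this, Equiv.apply_symm_apply]
    refine ⟨h2, ⟨hn, hlt, ?_⟩, ?_⟩
    · intro i hi j hj k hk
      have := mul_assoc (e ⟨i, hi⟩) (e ⟨j, hj⟩) (e ⟨k, hk⟩)
      rw [← hm, ← hm, ← hm, ← hm, e.apply_eq_iff_eq, Fin.ext_iff] at this
      exact this
    · obtain ⟨T', iT', a1, a2, a3, a4, ψ, hψ⟩ := emb3 T hnil U hU1 hU2 φ hφ
      have hcard : Nat.card T = L.length := by
        rw [← Nat.card_congr e, Nat.card_eq_fintype_card, Fintype.card_fin]
      have hle : Nat.card T' ≤ bnd L.length := by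
        refine le_trans (hcard ▸ a2) ?_
        unfold bnd
        refine Nat.le_mul_of_pos_right _ (Nat.pow_pos (Nat.pow_pos ?_))
        unfold dcl
        exact Nat.succ_pos _
      let r : ℕ → Fin L.length := fun i => ⟨i % L.length, Nat.mod_lt _ hn⟩
      have hr : ∀ i (hi : i < L.length), r i = ⟨i, hi⟩ := fun i hi =>
        Fin.ext (Nat.mod_eq_of_lt hi)
      have hRV : RVs [] T' inferInstance := ⟨a1, ⟨ψ t0⟩, a3, a4, fun p hp =>
        absurd hp List.not_mem_nil⟩
      obtain ⟨c, hc, d, hd, h⟩ := Frm_Emb_of (n := L.length) (t := entry L) hlt hRV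
        (fun i => ψ (e (r i))) (by
          intro i hi j hj
          rw [hr i hi, hr j hj, hr _ (hlt i hi j hj), ← map_mul, ← hm]) (by
          intro i hi j hj h
          rw [hr i hi, hr j hj] at h
          have := e.injective (hψ h)
          exact Fin.ext_iff.1 this)
      exact ⟨Nat.card T', Nat.lt_succ_of_le hle, c, hc, d, hd, h⟩

/-! ### the operators -/

private theorem Dec_RVs_map (V : List Idty) {T U : Type} [Semigroup T] [Semigroup U] (f : T →ₙ* U)
    (hf : Function.Surjective f) (h : RVs V T inferInstance) : RVs V U inferInstance := by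
  obtain ⟨h1, ⟨t⟩, h3, h4, h5⟩ := h
  exact ⟨Finite.of_surjective f hf, ⟨f t⟩, map_regular f hf h3, map_closed f hf h3 h4,
    sat_surj f hf h3 h5⟩

private theorem Dec_RVs_pi (V : List Idty) {k : ℕ} (U : Fin k → Type) (i : ∀ j, Semigroup (U j))
    (h : ∀ j, RVs V (U j) (i j)) : RVs V (∀ j, U j) inferInstance := by
  have h1 : ∀ j, Finite (U j) := fun j => (h j).1
  have h2 : ∀ j, Nonempty (U j) := fun j => (h j).2.1
  refine ⟨inferInstance, inferInstance, ?_, ?_, ?_⟩
  · intro a
    choose x hx using fun j => (h j).2.2.1 (a j)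
    exact ⟨x, funext hx⟩
  · intro e f he hf
    funext j
    exact (h j).2.2.2.1 _ _ (congrFun he j) (congrFun hf j)
  · exact sat_pi fun j => (h j).2.2.2.2

private theorem Dec_opH_RVs (V : List Idty) : opH (RVs V) = RVs V := by
  funext T i
  apply propext
  constructor
  · rintro ⟨U, j, hU, f, hf⟩
    exact Dec_RVs_map V f hf hU
  · intro h
    exact ⟨T, i, h, MulHom.id T, fun x => ⟨x, rfl⟩⟩

private theorem Dec_opP_RVs (V : List Idty) : opP (RVs V) = RVs V := by
  funext T i
  apply propext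
  constructor
  · rintro ⟨k, U, j, hU, f, hf⟩
    obtain ⟨g, hg⟩ := bij_inv f hf
    exact Dec_RVs_map V g hg.2 (Dec_RVs_pi V U j hU)
  · intro h
    exact opP_of _ h

private theorem Dec_opS_Ss (V : List Idty) : opS (opS (RVs V)) = opS (RVs V) := by
  funext T i
  apply propext
  constructor
  · rintro ⟨h0, U, j, ⟨-, W, k, hW, g, hg⟩, f, hf⟩
    exact ⟨h0, W, k, hW, g.comp f, hg.comp hf⟩
  · rintro ⟨h0, h⟩
    exact ⟨h0, T, i, ⟨h0, h⟩, MulHom.id T, fun _ _ h => h⟩

private theorem Dec_opP_Ss (V : List Idty) : opP (opS (RVs V)) = opS (RVs V) := by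
  funext T i
  apply propext
  constructor
  · rintro ⟨k, U, j, hU, f, hf⟩
    choose hne W iW hW g hg using hU
    obtain ⟨f', hf'⟩ := bij_inv f hf
    refine ⟨⟨f' fun j => (hne j).some⟩, ∀ j, W j, inferInstance, Dec_RVs_pi V W iW hW,
      ⟨fun t j => g j (f t j), ?_⟩, ?_⟩
    · intro a b
      funext j
      show g j (f (a * b) j) = g j (f a j) * g j (f b j)
      rw [map_mul f, Pi.mul_apply, map_mul (g j)]
    · intro a b h
      apply hf.1
      funext j
      exact hg j (congrFun h j)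
  · intro h
    exact opP_of _ h

theorem Dec_birkhoff_noSs (V : List Idty) (K : List Op) (hK : Op.S ∉ K) :
    birkhoff K (RVs V) = RVs V := by
  induction K with
  | nil => rfl
  | cons O K ih =>
    have h1 := ih fun h => hK (List.mem_cons_of_mem _ h)
    show O.app (birkhoff K (RVs V)) = RVs V
    rw [h1]
    cases O with
    | H => exact Dec_opH_RVs V
    | S => exact absurd List.mem_cons_self hK
    | P => exact Dec_opP_RVs V

theorem Dec_birkhoff_Ss (V : List Idty) (K : List Op) (hS : Op.S ∈ K)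
    (hK : ∀ A B, K = A ++ Op.H :: B → Op.S ∉ B) : birkhoff K (RVs V) = opS (RVs V) := by
  induction K with
  | nil => exact absurd hS List.not_mem_nil
  | cons O K ih =>
    have hK' : ∀ A B, K = A ++ Op.H :: B → Op.S ∉ B := fun A B h => hK (O :: A) B (by rw [h]; rfl)
    show O.app (birkhoff K (RVs V)) = opS (RVs V)
    by_cases hSK : Op.S ∈ K
    · rw [ih hSK hK']
      cases O with
      | H => exact absurd hSK (hK [] K rfl)
      | S => exact Dec_opS_Ss V
      | P => exact Dec_opP_Ss V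
    · rw [Dec_birkhoff_noSs V K hSK]
      have hO : O = Op.S := by
        rcases List.mem_cons.1 hS with h | h
        · exact h.symm
        · exact absurd h hSK
      subst hO
      rfl

private theorem Dec_HS : nil3 (opH (opS OO)) =
    fun T i => Finite T ∧ Nonempty T ∧ @Nil3 T i := by
  funext T i
  apply propext
  constructor
  · rintro ⟨⟨W, k, ⟨⟨w⟩, U, j, ⟨hfin, -⟩, g, hg⟩, f, hf⟩, hn⟩
    have hW : Finite W := Finite.of_injective g hg
    exact ⟨Finite.of_surjective f hf, ⟨f w⟩, hn⟩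
  · rintro ⟨h1, h2, h3⟩
    exact ⟨hs3 T h3, h3⟩

theorem main3 (K : List Op) : Recursive (nil3 (birkhoff K OO)) := by
  by_cases hK : ∃ A B, K = A ++ Op.H :: B ∧ Op.S ∈ B
  · have h1 : birkhoff K OO = opH (opS OO) := by
      rw [OO_eq]
      exact birkhoff_HS [] K hK
    rw [h1, Dec_HS]
    exact rec_all
  · push Not at hK
    by_cases hS : Op.S ∈ K
    · have h1 : birkhoff K OO = opS OO := by
        rw [OO_eq]
        exact Dec_birkhoff_Ss [] K hS hK
      rw [h1]
      exact rec_S3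
    · have h1 : birkhoff K OO = RVs [] := by
        rw [OO_eq]
        exact Dec_birkhoff_noSs [] K hS
      rw [h1]
      exact rec_nil (VS.rec_R [])

end Pool.Agent.H.MP_830e61_lc.N3
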