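import Pool.Agent.H.MP_830e61_lc.N3.Up

/-!
# The dual of a list of identities

`V' = V.map fun w => (rev w.1, rev w.2)` with `rev w` the reversed word. Copy (private) from the last section
of VS/Words.lean: `Words_rev`, `Words_rev_of`, `Words_rev_mul`, `Words_rev_lift`, `Words_letters_mul`,
`Words_rev_mem`, and the pieces `hV'`, `hn'`, `hT` of the proof of `cutR_of` there: they are exactly what is needed
(for the equivalences: values in `T` and in the opposite semigroup are related by `Words_rev_lift`, idempotents
go to idempotents by `congrArg MulOpposite.op`).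
-/

set_option autoImplicit false

namespace Pool.Agent.H.MP_830e61_lc.N3

open Pool.Agent.H.MP_830e61_lc Pool.Agent.H.MP_830e61_lc.VS

/-- the reversed word -/
private def Dv_rev (w : FreeSemigroup ℕ) : FreeSemigroup ℕ :=
  MulOpposite.unop (FreeSemigroup.lift (fun i => MulOpposite.op (FreeSemigroup.of i)) w)

private theorem Dv_rev_mul (w w' : FreeSemigroup ℕ) :
    Dv_rev (w * w') = Dv_rev w' * Dv_rev w := by
  unfold Dv_rev
  rw [map_mul, MulOpposite.unop_mul]

private theorem Dv_rev_lift {B : Type*} [Semigroup B] (y : ℕ → Bᵐᵒᵖ) (w : FreeSemigroup ℕ) :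
    FreeSemigroup.lift y (Dv_rev w) =
      MulOpposite.op (FreeSemigroup.lift (fun i => MulOpposite.unop (y i)) w) := by
  induction w with
  | ih1 i => rfl
  | ih2 i w h1 h2 =>
    rw [Dv_rev_mul, map_mul, h1, h2, map_mul, MulOpposite.op_mul]

private theorem Dv_rev_lift' {B : Type*} [Semigroup B] (y : ℕ → B) (w : FreeSemigroup ℕ) :
    FreeSemigroup.lift y (Dv_rev w) =
      MulOpposite.unop (FreeSemigroup.lift (fun i => MulOpposite.op (y i)) w) := by
  induction w with
  | ih1 i => rfl
  | ih2 i w h1 h2 =>
    rw [Dv_rev_mul, map_mul, h1, h2, map_mul, MulOpposite.unop_mul]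

private theorem Dv_letters_mul (w w' : FreeSemigroup ℕ) :
    letters (w * w') = letters w ++ letters w' := rfl

private theorem Dv_rev_mem (w : FreeSemigroup ℕ) (i : ℕ) :
    i ∈ letters (Dv_rev w) ↔ i ∈ letters w := by
  induction w with
  | ih1 j => rfl
  | ih2 j w h1 h2 =>
    rw [Dv_rev_mul, Dv_letters_mul, Dv_letters_mul, List.mem_append, List.mem_append,
      h1, h2, or_comm]

theorem dual_list (V : List Idty) : ∃ V' : List Idty, (SameCont V → SameCont V') ∧
    (∀ (T : Type) [Semigroup T], Sat V' T ↔ Sat V Tᵐᵒᵖ) ∧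
    ∀ (T : Type) [Semigroup T], Sat V' Tᵐᵒᵖ ↔ Sat V T := by
  refine ⟨V.map fun w => (Dv_rev w.1, Dv_rev w.2), ?_, ?_, ?_⟩
  · intro hV w hw i
    obtain ⟨w', hw', rfl⟩ := List.mem_map.1 hw
    rw [Dv_rev_mem, Dv_rev_mem]
    exact hV w' hw' i
  · intro T _
    constructor
    · intro h w hw y hy
      have h1 := h _ (List.mem_map_of_mem hw) (fun i => MulOpposite.unop (y i))
        (fun i => congrArg MulOpposite.unop (hy i))
      simp only [Dv_rev_lift', MulOpposite.op_unop] at h1
      exact MulOpposite.unop_injective h1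
    · intro h w hw x hx
      obtain ⟨w', hw', rfl⟩ := List.mem_map.1 hw
      rw [Dv_rev_lift', Dv_rev_lift', h w' hw' (fun i => MulOpposite.op (x i))
        (fun i => congrArg MulOpposite.op (hx i))]
  · intro T _
    constructor
    · intro h w hw x hx
      have h1 := h _ (List.mem_map_of_mem hw) (fun i => MulOpposite.op (x i))
        (fun i => congrArg MulOpposite.op (hx i))
      simp only [Dv_rev_lift, MulOpposite.unop_op] at h1
      exact MulOpposite.op_injective h1
    · intro h w hw y hy
      obtain ⟨w', hw', rfl⟩ := List.mem_map.1 hw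
      rw [Dv_rev_lift, Dv_rev_lift, h w' hw' (fun i => MulOpposite.unop (y i))
        (fun i => congrArg MulOpposite.unop (hy i))]

end Pool.Agent.H.MP_830e61_lc.N3
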