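import Pool.Agent.H.MP_830e61_lc.N3.Act
import Pool.Agent.H.MP_830e61_lc.N3.CutW

/-!
# Semi-normality of the left action

Fix idempotents `x y z e` as in `LSt`. `Om = {f : T // f * f = f ∧ f * e = f ∧ e * f = e}`; it contains
`y * z * e`, `z * x * z * e` and so on: for an idempotent `a` with `e * a * e = e` and `f : Om`, `a * f : Om` (`f * (a * f) = f`, see Act.lean).
Two elements `f f'` of `Om` satisfy `f * f' = f`. `p = bef c w.1`, `p' = bef c w.2`.
(A) There is `d` in exactly one of `p`, `p'` (say in `p`; the other case is symmetric: prove a private lemma for lists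
`p p'` with `∀ a f, (conditions) → p.foldr .. f = p'.foldr .. f`). Then for all `f f' : Om` and idempotents `u` with `e * u * e = e`
use `act_eq` with `a i = if i = d then f' else u`: `p.foldr (..) f` is `f'` or `u * f'` (according to whether the first `d` of `p` is the
first letter of `p`: `p = p1 ++ d :: p2`, `d ∉ p1`, `f' * s = f'` for `s` in `Om`, `u * (u * s) = u * s`), and `p'.foldr (..) f` is
`f` or `u * f`, the choices do not depend on `f f' u`. In all four cases `u * f = u * f'` for all `f f' u` (in three cases all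
elements of `Om` are equal). So `x * (y * z * x * z * e) = x * (y * z * e)`.
(B) `p`, `p'` have the same members. Then both are not empty (the dedups differ), `p = letters v`, `p' = letters v'` for words
`v v'` (`v = ⟨i, l⟩` for `p = i :: l`). Let `BB = {g : Om → Om // ∃ a : T, a * a = a ∧ e * a * e = e ∧ ∀ ω, (g ω).1 = a * ω.1}` with
`(g * g') ω = g (g' ω)`, a semigroup (`cl_mul`), every element idempotent; `Sat [(v, v')] BB`: choose `a i` for the values, for `ω : Om` the
value of `lift g v` at `ω` is `(letters v).foldr (fun i s => a i * s) ω.1`, use `act_eq`. `cutL_ne` gives `CutL BB`; apply it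
to `a = X * Y * Z`, `h = X`, `x = Z`, where `X Y Z : BB` are the maps of `x y z`: `a * Z = a`, `a * X * a = a` (band identities:
`XYZ X XYZ = XYZ XYZ = XYZ`), so `X * Y * Z * X * Z = X * Y * Z`; apply both sides to `e : Om`.
-/

set_option autoImplicit false

namespace Pool.Agent.H.MP_830e61_lc.N3

open Pool.Agent.H.MP_830e61_lc Pool.Agent.H.MP_830e61_lc.VS

private theorem FlB_cl {T : Type} [Semigroup T] (hc : IdemClosed T) {e : T} (he : e * e = e)
    {a f : T} (ha : a * a = a) (hae : e * a * e = e) (hf : f * f = f ∧ f * e = f ∧ e * f = e) :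
    (a * f) * (a * f) = a * f ∧ (a * f) * e = a * f ∧ e * (a * f) = e := by
  refine ⟨hc a f ha hf.1, ?_, ?_⟩
  · rw [mul_assoc, hf.2.1]
  · have h1 : e * f * e = e := by rw [hf.2.2, he]
    have h2 := cl_mul hc ha hf.1 he hae h1
    calc e * (a * f) = e * (a * (f * e)) := by rw [hf.2.1]
      _ = e * (a * f) * e := by simp only [mul_assoc]
      _ = e := h2

private theorem FlB_fold {T : Type} [Semigroup T] (hc : IdemClosed T) {e : T} (he : e * e = e)
    {a : ℕ → T} (ha : ∀ i, a i * a i = a i) (hae : ∀ i, e * a i * e = e) {f : T}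
    (hf : f * f = f ∧ f * e = f ∧ e * f = e) (l : List ℕ) :
    l.foldr (fun i s => a i * s) f * l.foldr (fun i s => a i * s) f =
        l.foldr (fun i s => a i * s) f ∧
      l.foldr (fun i s => a i * s) f * e = l.foldr (fun i s => a i * s) f ∧
        e * l.foldr (fun i s => a i * s) f = e := by
  induction l with
  | nil => exact hf
  | cons i l ih =>
    rw [List.foldr_cons]
    exact FlB_cl hc he (ha i) (hae i) ih

/-- two elements of the L-class -/
private theorem FlB_mul {T : Type} [Semigroup T] {e f f' : T} (h1 : f * e = f)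
    (h2 : e * f' = e) : f * f' = f := by
  calc f * f' = f * e * f' := by rw [h1]
    _ = f * (e * f') := mul_assoc _ _ _
    _ = f := by rw [h2, h1]

private theorem FlB_pat {T : Type} [Semigroup T] (hc : IdemClosed T) {e : T} (he : e * e = e)
    {d : ℕ} {u f : T} (hu : u * u = u) (hue : e * u * e = e)
    (hf : f * f = f ∧ f * e = f ∧ e * f = e) :
    ∀ p : List ℕ, d ∈ p →
      (∀ g : T, g * g = g ∧ g * e = g ∧ e * g = e →
        p.foldr (fun i s => (if i = d then g else u) * s) f = g) ∨
      (∀ g : T, g * g = g ∧ g * e = g ∧ e * g = e →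
        p.foldr (fun i s => (if i = d then g else u) * s) f = u * g) := by
  intro p
  induction p with
  | nil => intro h; exact absurd h List.not_mem_nil
  | cons i l ih =>
    intro hd
    by_cases hi : i = d
    · left
      intro g hg
      have h1 := FlB_fold hc he (a := fun i => if i = d then g else u)
        (fun i => by
          change (if i = d then g else u) * (if i = d then g else u) = if i = d then g else u
          split_ifs
          · exact hg.1
          · exact hu)
        (fun i => by
          change e * (if i = d then g else u) * e = e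
          split_ifs
          · rw [hg.2.2, he]
          · exact hue) hf l
      rw [List.foldr_cons, if_pos hi]
      exact FlB_mul hg.2.1 h1.2.2
    · have hd' : d ∈ l := (List.mem_cons.1 hd).resolve_left fun h => hi h.symm
      right
      intro g hg
      rw [List.foldr_cons, if_neg hi]
      rcases ih hd' with h | h
      · rw [h g hg]
      · rw [h g hg, ← mul_assoc, hu]

private theorem FlB_congr {T : Type} [Semigroup T] {a b : ℕ → T} {f : T} :
    ∀ l : List ℕ, (∀ i ∈ l, a i = b i) →
      l.foldr (fun i s => a i * s) f = l.foldr (fun i s => b i * s) f := by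
  intro l
  induction l with
  | nil => intro _; rfl
  | cons i l ih =>
    intro h
    rw [List.foldr_cons, List.foldr_cons, h i List.mem_cons_self,
      ih fun j hj => h j (List.mem_cons_of_mem _ hj)]

/-- the L-class of `e` -/
private def FlB_Om (T : Type) [Semigroup T] (e : T) : Type :=
  {f : T // f * f = f ∧ f * e = f ∧ e * f = e}

/-- the left actions on it -/
private def FlB_BB (T : Type) [Semigroup T] (e : T) : Type :=
  {g : FlB_Om T e → FlB_Om T e // ∃ a : T, a * a = a ∧ e * a * e = e ∧
    ∀ ω, (g ω).1 = a * ω.1}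

private def FlB_sg {T : Type} [Semigroup T] (hc : IdemClosed T) {e : T} (he : e * e = e) :
    Semigroup (FlB_BB T e) where
  mul g g' := ⟨fun ω => g.1 (g'.1 ω), by
    obtain ⟨a, ha, hae, h⟩ := g.2
    obtain ⟨b, hb, hbe, h'⟩ := g'.2
    refine ⟨a * b, hc a b ha hb, cl_mul hc ha hb he hae hbe, fun ω => ?_⟩
    rw [h, h', mul_assoc]⟩
  mul_assoc _ _ _ := rfl

private def FlB_mk {T : Type} [Semigroup T] (hc : IdemClosed T) {e : T} (he : e * e = e) {a : T}
    (ha : a * a = a) (hae : e * a * e = e) : FlB_BB T e :=
  ⟨fun ω => ⟨a * ω.1, FlB_cl hc he ha hae ω.2⟩, a, ha, hae, fun _ => rfl⟩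

/-- case (A) for lists -/
theorem FlB_A {T : Type} [Semigroup T] (hc : IdemClosed T) {e : T} (he : e * e = e)
    {p p' : List ℕ} {d : ℕ} (hd : d ∈ p) (hd' : d ∉ p')
    (h : ∀ (a : ℕ → T) (f : T), (∀ i, a i * a i = a i) → (∀ i, e * a i * e = e) → f * f = f →
      f * e = f → e * f = e → p.foldr (fun i s => a i * s) f = p'.foldr (fun i s => a i * s) f) :
    ∀ u f f' : T, u * u = u → e * u * e = e → f * f = f → f * e = f → e * f = e →
      f' * f' = f' → f' * e = f' → e * f' = e → u * f = u * f' := by
  intro u f f' hu hue f1 f2 f3 g1 g2 g3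
  have hf : f * f = f ∧ f * e = f ∧ e * f = e := ⟨f1, f2, f3⟩
  have hf' : f' * f' = f' ∧ f' * e = f' ∧ e * f' = e := ⟨g1, g2, g3⟩
  have key : ∀ g : T, g * g = g ∧ g * e = g ∧ e * g = e →
      p.foldr (fun i s => (if i = d then g else u) * s) f = p'.foldr (fun _ s => u * s) f := by
    intro g hg
    have h1 := h (fun i => if i = d then g else u) f
      (fun i => by
        change (if i = d then g else u) * (if i = d then g else u) = if i = d then g else u
        split_ifs
        · exact hg.1
        · exact hu)
      (fun i => by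
        change e * (if i = d then g else u) * e = e
        split_ifs
        · rw [hg.2.2, he]
        · exact hue) f1 f2 f3
    refine h1.trans (FlB_congr (b := fun _ => u) p' fun i hi => ?_)
    have hid : i ≠ d := fun h2 => hd' (h2 ▸ hi)
    exact if_neg hid
  rcases FlB_pat hc he (d := d) hu hue hf p hd with h1 | h1
  · have h2 : f = f' := (h1 f hf).symm.trans ((key f hf).trans ((key f' hf').symm.trans (h1 f' hf')))
    rw [h2]
  · exact (h1 f hf).symm.trans ((key f hf).trans ((key f' hf').symm.trans (h1 f' hf')))

/-- case (B) -/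
theorem FlB_B {T : Type} [Semigroup T] (hc : IdemClosed T) {e : T} (he : e * e = e)
    {p p' : List ℕ} (hm : ∀ i, i ∈ p ↔ i ∈ p') (hne : p.dedup ≠ p'.dedup)
    (h : ∀ (a : ℕ → T) (f : T), (∀ i, a i * a i = a i) → (∀ i, e * a i * e = e) → f * f = f →
      f * e = f → e * f = e → p.foldr (fun i s => a i * s) f = p'.foldr (fun i s => a i * s) f)
    {x y z : T} (hx : x * x = x) (hy : y * y = y) (hz : z * z = z) (hxe : e * x * e = e)
    (hye : e * y * e = e) (hze : e * z * e = e) : x * y * z * x * z * e = x * y * z * e := by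
  cases p with
  | nil =>
    exfalso
    apply hne
    have h1 : p' = [] := List.eq_nil_iff_forall_not_mem.2 fun i hi =>
      absurd ((hm i).2 hi) List.not_mem_nil
    rw [h1]
  | cons i l =>
    cases p' with
    | nil => exact absurd ((hm i).1 List.mem_cons_self) List.not_mem_nil
    | cons i' l' =>
      letI : Semigroup (FlB_BB T e) := FlB_sg hc he
      have hmul : ∀ (g g' : FlB_BB T e) (ω : FlB_Om T e), (g * g').1 ω = g.1 (g'.1 ω) :=
        fun _ _ _ => rfl
      have hid : ∀ g : FlB_BB T e, g * g = g := by
        intro g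
        obtain ⟨a, ha, hae, h1⟩ := g.2
        apply Subtype.ext
        funext ω
        rw [hmul]
        apply Subtype.ext
        rw [h1, h1, ← mul_assoc, ha]
      have hfold : ∀ (g : ℕ → FlB_BB T e) (a : ℕ → T), (∀ j ω, ((g j).1 ω).1 = a j * ω.1) →
          ∀ (m : List ℕ) (G : FlB_BB T e) (ω : FlB_Om T e) (s : FlB_Om T e),
            s.1 = m.foldr (fun j s => a j * s) ω.1 →
            (m.foldl (fun c j => c * g j) G).1 ω = G.1 s := by
        intro g a hga m
        induction m with
        | nil =>
          intro G ω s hs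
          have h2 : s = ω := Subtype.ext hs
          rw [h2]
          rfl
        | cons j m ih =>
          intro G ω s hs
          rw [List.foldl_cons]
          have h3 : ∃ t : FlB_Om T e, t.1 = m.foldr (fun j s => a j * s) ω.1 := by
            clear hs s ih G
            induction m with
            | nil => exact ⟨ω, rfl⟩
            | cons k m ih =>
              obtain ⟨t, ht⟩ := ih
              refine ⟨(g k).1 t, ?_⟩
              rw [hga, ht, List.foldr_cons]
          obtain ⟨t, ht⟩ := h3
          have h4 : (g j).1 t = s := Subtype.ext (by rw [hga, ht, hs, List.foldr_cons])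
          rw [ih (G * g j) ω t ht, hmul, h4]
      have hval : ∀ (g : ℕ → FlB_BB T e) (a : ℕ → T), (∀ j ω, ((g j).1 ω).1 = a j * ω.1) →
          ∀ (k : ℕ) (m : List ℕ) (ω : FlB_Om T e),
            ((FreeSemigroup.lift g (⟨k, m⟩ : FreeSemigroup ℕ)).1 ω).1 =
              (k :: m).foldr (fun j s => a j * s) ω.1 := by
        intro g a hga k m ω
        have h3 : ∃ t : FlB_Om T e, t.1 = m.foldr (fun j s => a j * s) ω.1 := by
          induction m with
          | nil => exact ⟨ω, rfl⟩
          | cons k m ih =>
            obtain ⟨t, ht⟩ := ih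
            refine ⟨(g k).1 t, ?_⟩
            rw [hga, ht, List.foldr_cons]
        obtain ⟨t, ht⟩ := h3
        rw [FreeSemigroup.lift_mk_eq_foldl, hfold g a hga m (g k) ω t ht, hga, ht,
          List.foldr_cons]
      have hsat : Sat [((⟨i, l⟩ : FreeSemigroup ℕ), (⟨i', l'⟩ : FreeSemigroup ℕ))]
          (FlB_BB T e) := by
        intro w hw g _
        rw [List.mem_singleton] at hw
        subst hw
        have h4 : ∀ j, ∃ a : T, a * a = a ∧ e * a * e = e ∧ ∀ ω, ((g j).1 ω).1 = a * ω.1 :=
          fun j => (g j).2
        choose a ha hae hga using h4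
        apply Subtype.ext
        funext ω
        apply Subtype.ext
        rw [hval g a hga, hval g a hga]
        exact h a ω.1 ha hae ω.2.1 ω.2.2.1 ω.2.2.2
      have hcut : CutL (FlB_BB T e) := cutL_ne
        (w := ((⟨i, l⟩ : FreeSemigroup ℕ), (⟨i', l'⟩ : FreeSemigroup ℕ))) hm hne
        (fun g g' _ _ => hid _) hsat
      obtain ⟨X, hX⟩ : ∃ X : FlB_BB T e, ∀ ω, (X.1 ω).1 = x * ω.1 :=
        ⟨FlB_mk hc he hx hxe, fun _ => rfl⟩
      obtain ⟨Y, hY⟩ : ∃ Y : FlB_BB T e, ∀ ω, (Y.1 ω).1 = y * ω.1 :=
        ⟨FlB_mk hc he hy hye, fun _ => rfl⟩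
      obtain ⟨Z, hZ⟩ : ∃ Z : FlB_BB T e, ∀ ω, (Z.1 ω).1 = z * ω.1 :=
        ⟨FlB_mk hc he hz hze, fun _ => rfl⟩
      have h5 : X * Y * Z * X * Z = X * Y * Z := by
        refine hcut (X * Y * Z) X Z (hid _) (hid _) (hid _) ?_ ?_
        · rw [mul_assoc, hid]
        · calc X * Y * Z * X * (X * Y * Z) = X * Y * Z * (X * X) * Y * Z := by
                simp only [mul_assoc]
            _ = (X * Y * Z) * (X * Y * Z) := by rw [hid X]; simp only [mul_assoc]
            _ = X * Y * Z := hid _
      have h6 := congrArg (fun g : FlB_BB T e => (g.1 ⟨e, he, he, he⟩).1) h5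
      have h7 : ((X * Y * Z * X * Z).1 ⟨e, he, he, he⟩).1 = x * y * z * x * z * e := by
        simp only [hmul, hX, hY, hZ, mul_assoc]
      have h8 : ((X * Y * Z).1 ⟨e, he, he, he⟩).1 = x * y * z * e := by
        simp only [hmul, hX, hY, hZ, mul_assoc]
      exact h7.symm.trans (h6.trans h8)

end Pool.Agent.H.MP_830e61_lc.N3
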