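import Pool.Agent.H.MP_830e61_lc.N3.FlA
import Pool.Agent.H.MP_830e61_lc.N3.FlB
import Pool.Agent.H.MP_830e61_lc.N3.Dv

/-!
# Varieties not containing the bands of labels

`LSt_of`: `bef_ne` gives `w ∈ V` and `c`; `act_eq hw c hc h` is the hypothesis `h` of `FlB_A`, `FlB_B` with `p = bef c w.1`,
`p' = bef c w.2`. If the members of `p`, `p'` are the same use `FlB_B`, otherwise `FlB_A` (or with `p`, `p'` exchanged; use `.symm`) with
`u = x`, `f = y * z * x * z * e`, `f' = y * z * e` (both satisfy `f * f = f`, `f * e = f`, `e * f = e`: by `cl_mul`, `e * (y * z) * e = e` and so on: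
`e * (y * z * e) = e`, and `(y * z * e) * (y * z * e) = y * z * (e * (y * z) * e) = y * z * e`).
`RSt_of`: `V'` from `dual_list V`; `¬ Up V'` (because `Up V' ↔ UpD V` by the second part), `Sat V' Tᵐᵒᵖ` (third part), `IdemClosed Tᵐᵒᵖ`
(`op_closed`, Reg.lean), so `LSt Tᵐᵒᵖ` and this is `RSt T`.
-/

set_option autoImplicit false

namespace Pool.Agent.H.MP_830e61_lc.N3

open Pool.Agent.H.MP_830e61_lc Pool.Agent.H.MP_830e61_lc.VS

/-- the elements `a * e` -/
private theorem FlC_om {T : Type} [Semigroup T] {a e : T} (he : e * e = e)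
    (hae : e * a * e = e) : (a * e) * (a * e) = a * e ∧ (a * e) * e = a * e ∧ e * (a * e) = e := by
  refine ⟨?_, ?_, ?_⟩
  · calc (a * e) * (a * e) = a * (e * a * e) := by simp only [mul_assoc]
      _ = a * e := by rw [hae]
  · rw [mul_assoc, he]
  · rw [← mul_assoc, hae]

theorem LSt_of {V : List Idty} (hV : SameCont V) (hn : ¬ Up V) {T : Type} [Semigroup T]
    (hc : IdemClosed T) (h : Sat V T) : LSt T := by
  obtain ⟨w, hw, c, hne⟩ := bef_ne hV hn
  intro x y z e hx hy hz he hxe hye hze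
  have hA : ∀ (a : ℕ → T) (f : T), (∀ i, a i * a i = a i) → (∀ i, e * a i * e = e) → f * f = f →
      f * e = f → e * f = e →
      (bef c w.1).foldr (fun i s => a i * s) f = (bef c w.2).foldr (fun i s => a i * s) f :=
    fun a f ha hae hf hfe hef => act_eq hw c hc h ha he hf hae hfe hef
  by_cases hm : ∀ i, i ∈ bef c w.1 ↔ i ∈ bef c w.2
  · exact FlB_B hc he hm hne hA hx hy hz hxe hye hze
  · have hyz : (y * z) * (y * z) = y * z := hc y z hy hz
    have hxz : (x * z) * (x * z) = x * z := hc x z hx hz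
    have h1 : e * (y * z) * e = e := cl_mul hc hy hz he hye hze
    have h2 : e * (x * z) * e = e := cl_mul hc hx hz he hxe hze
    have h3 : e * ((y * z) * (x * z)) * e = e := cl_mul hc hyz hxz he h1 h2
    obtain ⟨a1, a2, a3⟩ := FlC_om he h1
    obtain ⟨b1, b2, b3⟩ := FlC_om he h3
    have key : x * ((y * z) * (x * z) * e) = x * ((y * z) * e) := by
      obtain ⟨d, hd⟩ := not_forall.1 hm
      by_cases hd1 : d ∈ bef c w.1
      · have hd2 : d ∉ bef c w.2 := fun hd2 => hd ⟨fun _ => hd2, fun _ => hd1⟩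
        exact FlB_A hc he hd1 hd2 hA x _ _ hx hxe b1 b2 b3 a1 a2 a3
      · have hd2 : d ∈ bef c w.2 := by
          by_contra hd2
          exact hd ⟨fun k => absurd k hd1, fun k => absurd k hd2⟩
        exact FlB_A hc he hd2 hd1 (fun a f ha hae hf hfe hef => (hA a f ha hae hf hfe hef).symm)
          x _ _ hx hxe b1 b2 b3 a1 a2 a3
    simp only [mul_assoc] at key ⊢
    exact key

theorem RSt_of {V : List Idty} (hV : SameCont V) (hn : ¬ UpD V) {T : Type} [Semigroup T]
    (hc : IdemClosed T) (h : Sat V T) : RSt T := by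
  obtain ⟨V', k1, k2, k3⟩ := dual_list V
  have hn' : ¬ Up V' := by
    intro hu
    apply hn
    intro Ω _ M
    exact (k2 (Bd M)).1 (hu Ω M)
  have hL : LSt Tᵐᵒᵖ := LSt_of (k1 hV) hn' (op_closed hc) ((k3 T).2 h)
  intro x y z e hx hy hz he hxe hye hze
  have hop : ∀ {a : T}, e * a * e = e → MulOpposite.op e * MulOpposite.op a * MulOpposite.op e =
      MulOpposite.op e := by
    intro a ha
    rw [← MulOpposite.op_mul, ← MulOpposite.op_mul, ← mul_assoc, ha]
  have := hL (MulOpposite.op x) (MulOpposite.op y) (MulOpposite.op z) (MulOpposite.op e)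
    (congrArg MulOpposite.op hx) (congrArg MulOpposite.op hy) (congrArg MulOpposite.op hz)
    (congrArg MulOpposite.op he) (hop hxe) (hop hye) (hop hze)
  have h5 := congrArg MulOpposite.unop this
  simp only [MulOpposite.unop_mul, MulOpposite.unop_op] at h5
  simp only [mul_assoc] at h5 ⊢
  exact h5

end Pool.Agent.H.MP_830e61_lc.N3
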