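import Pool.Agent.H.MP_830e61_lc.N3.PIV
import Pool.Agent.H.MP_830e61_lc.N3.Hs

/-!
# Divisors, for varieties containing the semilattices

Copy of `hs3` (N3/Hs.lean), the target is `PI X Unit`, and `Sat V (PI X Unit)` is `sat_PI` (`Unit` is a semigroup with
one element).
-/

set_option autoImplicit false

namespace Pool.Agent.H.MP_830e61_lc.N3

open Pool.Agent.H.MP_830e61_lc Pool.Agent.H.MP_830e61_lc.VS

theorem hs3V {V : List Idty} (hV : SameCont V) (S : Type) [i : Semigroup S] [Finite S] [Nonempty S]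
    (h : Nil3 S) : opH (opS (RVs V)) S i := by
  obtain ⟨f, hf⟩ := Fr_surj h
  obtain ⟨g, hg⟩ := Fr_emb S
  have hB : ∀ b : Unit, b * b = b := fun b => rfl
  have hS : Sat V Unit := fun _ _ _ _ => rfl
  exact ⟨Fr S, inferInstance, ⟨⟨none⟩, PI (Option (S ⊕ S × S)) Unit, inferInstance,
    ⟨inferInstance, ⟨g none⟩, PI.regular hB, PI.closed hB, sat_PI hV hB hS⟩, g, hg⟩, f, hf⟩

end Pool.Agent.H.MP_830e61_lc.N3
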