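import Pool.Agent.H.MP_830e61_lc.N3.Act

/-!
# Semi-normality of both actions implies the star identities

`B` is a band. (1) In a band `f * a * f = f` for every factor `a` of `f`. For `StarL`:
`f = x y z x y w z`, `g = x y z x y z y w z`, `e = w * z * f`: `e x e = e`, `e y e = e`, `e z e = e`, `e w e = e`, `e e = e`
(`e * u * e = w z f u w z f` and `f v f = f` for every product `v` of `x, y, z, w`).
`LSt` for `z, x, y, e`: `z x y z y e = z x y e`, so `g * f = x y z x y z y (w z f) = x y (z x y z y e) = x y z x y e = f * f = f`.
`RSt` with `e' = f x y z x` (again `e' u e' = e'`) for the triple (x := z, y := w, z := y): `e' * y * z * y * w * z = e' * y * w * z`, so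
`f * g = f x y z x (y z y w z) = f x y z x (y w z) = f * f = f`. Finally `g * f * g = g`, because `g` contains all letters, so
`g = (g * f) * g = f * g = f`. `StarR` is the mirror image: prove `StarL` first, in the form of a private
lemma for all bands, and apply it to `Bᵐᵒᵖ` (`LSt Bᵐᵒᵖ` follows from `RSt B`, `RSt Bᵐᵒᵖ` from `LSt B`), or repeat the computation.
A convenient tool: `have key : ∀ v : B, (∃ a b, f = a * v) ...` is not needed, `f * v * f = f` for `v` a product of
factors follows from `cl_mul` (Act.lean) with `a = f` and `f * x * f = f` for the single letters; for a single letter `x` with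
`f = p * x * q`: `f * x * f = f`: `f x f = p x q x p x q = p (x q x p x) q`, and `cl_mul` again, or the standard band identity:
with `k = q * p`: `x k x k x` ... : `f x f = p x (q x p x) q`; note `x q p x q = (x q p)(x q)`; simplest is `f = f * f`, `f * x * f = f`
holds as `b * a * b = b` if `b ≤_J a`; proof: `b = p a q`, `(a q p) (a q p) = a q p`, so
`b a b = p a q a p a q`, multiply out `b = b b = p (a q p a q)`. Ask helper26 if this takes more than five minutes.
-/

set_option autoImplicit false

namespace Pool.Agent.H.MP_830e61_lc.N3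

open Pool.Agent.H.MP_830e61_lc Pool.Agent.H.MP_830e61_lc.VS

private theorem StarL_J {B : Type} [Semigroup B] (hb : ∀ b : B, b * b = b) {p b q a : B}
    (h : a = p * b * q) : a * b * a = a := by
  have h1 : a * (b * q) * a = a := by
    calc a * (b * q) * a = p * ((b * q) * (b * q)) * (p * (b * q)) := by
          rw [h]
          simp only [mul_assoc]
      _ = p * (b * q) * (p * (b * q)) := by rw [hb (b * q)]
      _ = p * (b * q) := hb _
      _ = a := by rw [h, mul_assoc]
  calc a * b * a = a * b * (a * (b * q) * a) := by rw [h1]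
    _ = (a * b) * (a * b) * (q * a) := by simp only [mul_assoc]
    _ = a * b * (q * a) := by rw [hb (a * b)]
    _ = a * (b * q) * a := by simp only [mul_assoc]
    _ = a := h1

private theorem StarL_J1 {B : Type} [Semigroup B] (hb : ∀ b : B, b * b = b) {b q a : B}
    (h : a = b * q) : a * b * a = a := by
  refine StarL_J hb (p := a) (q := q) ?_
  calc a = a * a := (hb a).symm
    _ = a * (b * q) := by rw [← h]
    _ = a * b * q := by rw [mul_assoc]

private theorem StarL_main {B : Type} [Semigroup B] (hb : ∀ b : B, b * b = b) (h1 : LSt B)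
    (h2 : RSt B) : StarL B := by
  intro x y z w _ _ _ _
  obtain ⟨f, hf⟩ : ∃ f, f = x * y * z * x * y * w * z := ⟨_, rfl⟩
  obtain ⟨g, hg⟩ : ∃ g, g = x * y * z * x * y * z * y * w * z := ⟨_, rfl⟩
  have hcl : ∀ (a : B) {u v : B}, a * u * a = a → a * v * a = a → a * (u * v) * a = a :=
    fun a u v h k => cl_mul (fun e f _ _ => hb _) (hb u) (hb v) (hb a) h k
  have fx : f * x * f = f := StarL_J1 hb (q := y * z * x * y * w * z) (by
    rw [hf]; simp only [mul_assoc])
  have fy : f * y * f = f := StarL_J hb (p := x) (q := z * x * y * w * z) (by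
    rw [hf]; simp only [mul_assoc])
  have fz : f * z * f = f := StarL_J hb (p := x * y) (q := x * y * w * z) (by
    rw [hf]; simp only [mul_assoc])
  have fw : f * w * f = f := StarL_J hb (p := x * y * z * x * y) (q := z) hf
  have gx : g * x * g = g := StarL_J1 hb (q := y * z * x * y * z * y * w * z) (by
    rw [hg]; simp only [mul_assoc])
  have gy : g * y * g = g := StarL_J hb (p := x) (q := z * x * y * z * y * w * z) (by
    rw [hg]; simp only [mul_assoc])
  have gz : g * z * g = g := StarL_J hb (p := x * y) (q := x * y * z * y * w * z) (by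
    rw [hg]; simp only [mul_assoc])
  have gw : g * w * g = g := StarL_J hb (p := x * y * z * x * y * z * y) (q := z) hg
  -- the left action
  have heu : ∀ u, f * u * f = f → w * z * f * u * (w * z * f) = w * z * f := by
    intro u hu
    have h3 : f * (u * w * z) * f = f := hcl f (hcl f hu fw) fz
    calc w * z * f * u * (w * z * f) = w * z * (f * (u * w * z) * f) := by
          simp only [mul_assoc]
      _ = w * z * f := by rw [h3]
  have hL := h1 z x y (w * z * f) (hb z) (hb x) (hb y) (hb _) (heu z fz) (heu x fx) (heu y fy)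
  have gf : g * f = f := by
    calc g * f = x * y * (z * x * y * z * y * (w * z * f)) := by
          rw [hg]; simp only [mul_assoc]
      _ = x * y * (z * x * y * (w * z * f)) := by rw [hL]
      _ = x * y * z * x * y * w * z * f := by simp only [mul_assoc]
      _ = f * f := by rw [← hf]
      _ = f := hb f
  -- the right action
  have heu' : ∀ u, f * u * f = f →
      f * x * y * z * x * u * (f * x * y * z * x) = f * x * y * z * x := by
    intro u hu
    have h3 : f * (x * y * z * x * u) * f = f :=
      hcl f (hcl f (hcl f (hcl f fx fy) fz) fx) hu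
    calc f * x * y * z * x * u * (f * x * y * z * x)
        = (f * (x * y * z * x * u) * f) * (x * y * z * x) := by simp only [mul_assoc]
      _ = f * (x * y * z * x) := by rw [h3]
      _ = f * x * y * z * x := by simp only [mul_assoc]
  have hR := h2 z w y (f * x * y * z * x) (hb z) (hb w) (hb y) (hb _) (heu' z fz) (heu' w fw)
    (heu' y fy)
  have fg : f * g = f := by
    calc f * g = f * x * y * z * x * y * z * y * w * z := by
          rw [hg]; simp only [mul_assoc]
      _ = f * x * y * z * x * y * w * z := hR
      _ = f * (x * y * z * x * y * w * z) := by simp only [mul_assoc]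
      _ = f * f := by rw [← hf]
      _ = f := hb f
  have gfg : g * f * g = g := by
    rw [hf]
    exact hcl g (hcl g (hcl g (hcl g (hcl g (hcl g gx gy) gz) gx) gy) gw) gz
  rw [← hf, ← hg]
  calc f = f * g := fg.symm
    _ = g * f * g := by rw [gf]
    _ = g := gfg

private theorem StarL_op1 {B : Type} [Semigroup B] (h2 : RSt B) : LSt Bᵐᵒᵖ := by
  intro x y z e hx hy hz he h3 h4 h5
  have k : ∀ u : Bᵐᵒᵖ, u * u = u → u.unop * u.unop = u.unop :=
    fun u hu => congrArg MulOpposite.unop hu
  have k2 : ∀ u : Bᵐᵒᵖ, e * u * e = e → e.unop * u.unop * e.unop = e.unop := by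
    intro u hu
    have h6 := congrArg MulOpposite.unop hu
    simp only [MulOpposite.unop_mul] at h6
    rw [mul_assoc]
    exact h6
  have h7 := h2 x.unop y.unop z.unop e.unop (k x hx) (k y hy) (k z hz) (k e he) (k2 x h3)
    (k2 y h4) (k2 z h5)
  apply MulOpposite.unop_injective
  simp only [MulOpposite.unop_mul, mul_assoc] at h7 ⊢
  exact h7

private theorem StarL_op2 {B : Type} [Semigroup B] (h2 : LSt B) : RSt Bᵐᵒᵖ := by
  intro x y z e hx hy hz he h3 h4 h5
  have k : ∀ u : Bᵐᵒᵖ, u * u = u → u.unop * u.unop = u.unop :=
    fun u hu => congrArg MulOpposite.unop hu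
  have k2 : ∀ u : Bᵐᵒᵖ, e * u * e = e → e.unop * u.unop * e.unop = e.unop := by
    intro u hu
    have h6 := congrArg MulOpposite.unop hu
    simp only [MulOpposite.unop_mul] at h6
    rw [mul_assoc]
    exact h6
  have h7 := h2 x.unop y.unop z.unop e.unop (k x hx) (k y hy) (k z hz) (k e he) (k2 x h3)
    (k2 y h4) (k2 z h5)
  apply MulOpposite.unop_injective
  simp only [MulOpposite.unop_mul, mul_assoc] at h7 ⊢
  exact h7

theorem star_of_LSt {B : Type} [Semigroup B] (hb : ∀ b : B, b * b = b) (h1 : LSt B) (h2 : RSt B) :
    StarL B ∧ StarR B := by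
  refine ⟨StarL_main hb h1 h2, ?_⟩
  have h3 : StarL Bᵐᵒᵖ := StarL_main (fun b => MulOpposite.unop_injective (hb b.unop))
    (StarL_op1 h2) (StarL_op2 h1)
  intro x y z w hx hy hz hw
  have h4 := h3 (MulOpposite.op x) (MulOpposite.op y) (MulOpposite.op z) (MulOpposite.op w)
    (congrArg MulOpposite.op hx) (congrArg MulOpposite.op hy) (congrArg MulOpposite.op hz)
    (congrArg MulOpposite.op hw)
  have h5 := congrArg MulOpposite.unop h4
  simp only [MulOpposite.unop_mul, MulOpposite.unop_op, mul_assoc] at h5 ⊢
  exact h5

end Pool.Agent.H.MP_830e61_lc.N3
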