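import Pool.Agent.H.MP_830e61_lc.N3.EmbV
import Pool.Agent.H.MP_830e61_lc.N3.HsV
import Pool.Agent.H.MP_830e61_lc.N3.FlC
import Pool.Agent.H.MP_830e61_lc.N3.StarL
import Pool.Agent.H.MP_830e61_lc.N3.Dec
import Pool.Agent.H.MP_830e61_lc.VS.Emb

set_option autoImplicit false

namespace Pool.Agent.H.MP_830e61_lc.N3

open Pool.Agent.H.MP_830e61_lc Pool.Agent.H.MP_830e61_lc.VS

theorem trich (V : List Idty) (hV : SameCont V) : Up V ∨ UpD V ∨ Below V := by
  by_cases h1 : Up V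
  · exact Or.inl h1
  · by_cases h2 : UpD V
    · exact Or.inr (Or.inl h2)
    · refine Or.inr (Or.inr ?_)
      intro B _ hb hB
      have hc : IdemClosed B := fun e f _ _ => hb _
      exact star_of_LSt hb (LSt_of hV h1 hc hB) (RSt_of hV h2 hc hB)

theorem nil3_S {V : List Idty} (hV : SameCont V) (hU : Up V ∨ UpD V) :
    nil3 (opS (RVs V)) = nil3 (opS OO) := by
  funext S i
  apply propext
  constructor
  · rintro ⟨⟨h0, U, iU, ⟨h1, h2, h3, h4, -⟩, f, hf⟩, hn⟩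
    exact ⟨⟨h0, U, iU, ⟨h1, h2, h3, h4⟩, f, hf⟩, hn⟩
  · rintro ⟨⟨h0, U, iU, ⟨h1, h2, h3, h4⟩, f, hf⟩, hn⟩
    have hS : Finite S := Finite.of_injective f hf
    obtain ⟨T, iT, a1, -, a3, a4, a5, ψ, hψ⟩ := emb3V hV hU S hn U h3 h4 f hf
    exact ⟨⟨h0, T, iT, ⟨a1, ⟨ψ h0.some⟩, a3, a4, a5⟩, ψ, hψ⟩, hn⟩

private theorem DecV_HS {V : List Idty} (hV : SameCont V) : nil3 (opH (opS (RVs V))) =
    fun T i => Finite T ∧ Nonempty T ∧ @Nil3 T i := by
  funext T i
  apply propext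
  constructor
  · rintro ⟨⟨W, k, ⟨⟨w⟩, U, j, ⟨hfin, -⟩, g, hg⟩, f, hf⟩, hn⟩
    have hW : Finite W := Finite.of_injective g hg
    exact ⟨Finite.of_surjective f hf, ⟨f w⟩, hn⟩
  · rintro ⟨h1, h2, h3⟩
    exact ⟨hs3V hV T h3, h3⟩

theorem main3V (V : List Idty) (K : List Op) : Recursive (nil3 (birkhoff K (RVs V))) := by
  by_cases hV : SameCont V
  · by_cases hK : ∃ A B, K = A ++ Op.H :: B ∧ Op.S ∈ B
    · rw [birkhoff_HS V K hK, DecV_HS hV]
      exact rec_all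
    · push Not at hK
      by_cases hS : Op.S ∈ K
      · have h1 : Up V ∨ UpD V → Recursive (nil3 (birkhoff K (RVs V))) := by
          intro hU
          rw [Dec_birkhoff_Ss V K hS hK, nil3_S hV hU]
          exact rec_S3
        rcases trich V hV with h | h | h
        · exact h1 (Or.inl h)
        · exact h1 (Or.inr h)
        · exact rec_nil (VS.main V (VS.emb V h) K hK)
      · rw [Dec_birkhoff_noSs V K hS]
        exact rec_nil (VS.rec_R V)
  · exact rec_nil (VS.main_rect V hV K)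

end Pool.Agent.H.MP_830e61_lc.N3
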