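import Pool.Agent.H.MP_830e61_lc.VS.Sat

/-!
# 3-nilpotent semigroups: definitions
-/

set_option autoImplicit false

namespace Pool.Agent.H.MP_830e61_lc.N3

open Pool.Agent.H.MP_830e61_lc

/-- All products of three elements are equal (`S^3 = 0`). -/
def Nil3 (S : Type*) [Semigroup S] : Prop := ∃ z : S, ∀ a b c : S, a * b * c = z

/-- The class of finite nonempty orthodox semigroups: regular semigroups whose idempotents form a
subsemigroup. -/
def OO : SgClass := fun T _ => Finite T ∧ Nonempty T ∧ Regular T ∧ IdemClosed T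

/-- The members of the class with `S^3 = 0`. -/
def nil3 (Φ : SgClass) : SgClass := fun T i => Φ T i ∧ @Nil3 T i

theorem OO_eq : OO = VS.RVs [] := by
  funext T i
  apply propext
  constructor
  · rintro ⟨h1, h2, h3, h4⟩
    exact ⟨h1, h2, h3, h4, fun p hp => absurd hp List.not_mem_nil⟩
  · rintro ⟨h1, h2, h3, h4, -⟩
    exact ⟨h1, h2, h3, h4⟩

theorem nil3_zero {S : Type*} [Semigroup S] {z : S} (h : ∀ a b c : S, a * b * c = z) (x : S) :
    z * x = z ∧ x * z = z := by
  constructor
  · rw [← h x x x, h (x * x) x x, h x x x]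
  · have h1 := h x x x
    calc x * z = x * (x * x * x) := by rw [h1]
      _ = x * (x * x) * x := by rw [mul_assoc x (x * x) x]
      _ = z := h _ _ _

end Pool.Agent.H.MP_830e61_lc.N3
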