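import Pool.Agent.H.MP_830e61_lc.N3.Rep
import Pool.Agent.H.MP_830e61_lc.N3.Ar

/-!
# The bounded embedding theorem

`gam_quot` (VS/Gam.lean) gives `π : T → J`, put `ψ = π ∘ φ`; `ψ s = ψ z` implies `π (φ s)` idempotent (`z` is
idempotent), so `φ s * φ s = φ s`, `s * s = s`, `s = s * s * s = z`. Then `rep` for all `s ≠ z`, the product
over the index type `{s // s ≠ z}` (`pi_orth`, `bd_arith`; `Nat.card {s // s ≠ z} ≤ Nat.card S`); it separates
`c ≠ d`, because one of them is not `z`; note that `{s // s ≠ z}` may be empty (then `S` is trivial; the product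
over the empty type has one element, this needs no special treatment).
-/

set_option autoImplicit false

namespace Pool.Agent.H.MP_830e61_lc.N3

open Pool.Agent.H.MP_830e61_lc Pool.Agent.H.MP_830e61_lc.VS

theorem emb3 (S : Type) [Semigroup S] [Finite S] (hS : Nil3 S) (T : Type) [Semigroup T]
    (hr : Regular T) (hc : IdemClosed T) (φ : S →ₙ* T) (hφ : Function.Injective φ) :
    ∃ (T' : Type) (_ : Semigroup T'), Finite T' ∧ Nat.card T' ≤ bound (Nat.card S) ∧
      Regular T' ∧ IdemClosed T' ∧ ∃ ψ : S →ₙ* T', Function.Injective ψ := by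
  obtain ⟨z, hz⟩ := hS
  obtain ⟨J, iJ, π, -, hJr, hJc, -, hJi⟩ := gam_quot hr hc
  let ψ : S →ₙ* J := π.comp φ
  have hzz : z * z = z := (nil3_zero hz z).1
  have hψ : ∀ s, s ≠ z → ψ s ≠ ψ z := by
    intro s hs h
    have h1 : π (φ s) * π (φ s) = π (φ s) := by
      have h2 : ψ s * ψ s = ψ s := by rw [h, ← map_mul, hzz]
      exact h2
    have h3 := hJi _ h1
    rw [← map_mul] at h3
    have h4 : s * s = s := hφ h3
    apply hs
    calc s = s * s * s := by rw [h4, h4]
      _ = z := hz s s s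
  have hrep := fun p : {s : S // s ≠ z} => rep hz hJr hJc ψ hψ p.1 p.2
  choose U iU h1 h2 h3 h4 h5 Ψ h6 using hrep
  obtain ⟨a1, a2, a3, a4⟩ := pi_orth (i := iU) U h1 h3 h4 h5
  have hk : Nat.card {s : S // s ≠ z} ≤ Nat.card S :=
    Nat.card_le_card_of_injective Subtype.val Subtype.val_injective
  refine ⟨∀ p, U p, inferInstance, a1, a4.trans (bd_arith hk), a2, a3,
    ⟨fun c p => Ψ p c, fun a b => funext fun p => map_mul (Ψ p) a b⟩, ?_⟩
  intro c d hcd
  by_cases hcz : c = z
  · by_contra hne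
    have hdz : d ≠ z := fun h => hne (hcz.trans h.symm)
    exact hne (h6 ⟨d, hdz⟩ c (congrFun hcd ⟨d, hdz⟩))
  · exact (h6 ⟨c, hcz⟩ d (congrFun hcd ⟨c, hcz⟩).symm).symm

end Pool.Agent.H.MP_830e61_lc.N3
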