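import Pool.Agent.H.MP_830e61_lc.N3.RepV
import Pool.Agent.H.MP_830e61_lc.N3.Emb
import Pool.Agent.H.MP_830e61_lc.N3.Dv

/-!
# The bounded embedding theorem for varieties containing the bands of labels

(1) If `Up V`: copy of the proof of `emb3` (N3/Emb.lean) with `rep_oneV hV hU` instead of `rep`, and `sat_pi`
(VS/Sat.lean) for the product. (2) If `UpD V`: take `V'` from `dual_list V`; `Up V'` by its second part; apply (1) to
the opposite semigroups: `Nil3 Sᵐᵒᵖ`, `op_regular`, `op_closed` (Reg.lean), the homomorphism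
`⟨fun a => MulOpposite.op (φ a.unop), ..⟩`; if `T'` is the result, take `T'ᵐᵒᵖ`, `Sat V T'ᵐᵒᵖ ↔ Sat V' T'`, and
`fun s => MulOpposite.op (ψ (MulOpposite.op s))`; cardinalities by `Nat.card_congr MulOpposite.opEquiv`.
Prove (1) as a private theorem.
-/

set_option autoImplicit false

namespace Pool.Agent.H.MP_830e61_lc.N3

open Pool.Agent.H.MP_830e61_lc Pool.Agent.H.MP_830e61_lc.VS

private theorem EmbV_up {V : List Idty} (hV : SameCont V) (hU : Up V) (S : Type) [Semigroup S]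
    [Finite S] (hS : Nil3 S) (T : Type) [Semigroup T]
    (hr : Regular T) (hc : IdemClosed T) (φ : S →ₙ* T) (hφ : Function.Injective φ) :
    ∃ (T' : Type) (_ : Semigroup T'), Finite T' ∧ Nat.card T' ≤ bound (Nat.card S) ∧
      Regular T' ∧ IdemClosed T' ∧ Sat V T' ∧ ∃ ψ : S →ₙ* T', Function.Injective ψ := by
  obtain ⟨z, hz⟩ := hS
  obtain ⟨J, iJ, π, -, hJr, hJc, -, hJi⟩ := gam_quot hr hc
  let ψ : S →ₙ* J := π.comp φ
  have hzz : z * z = z := (nil3_zero hz z).1
  have hψ : ∀ s, s ≠ z → ψ s ≠ ψ z := by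
    intro s hs h
    have h1 : π (φ s) * π (φ s) = π (φ s) := by
      have h2 : ψ s * ψ s = ψ s := by rw [h, ← map_mul, hzz]
      exact h2
    have h3 := hJi _ h1
    rw [← map_mul] at h3
    have h4 : s * s = s := hφ h3
    apply hs
    calc s = s * s * s := by rw [h4, h4]
      _ = z := hz s s s
  have hrep := fun p : {s : S // s ≠ z} => rep_oneV hV hU hz hJr hJc ψ p.1 (hψ p.1 p.2)
  choose U iU h1 h2 h3 h4 h5 h7 Ψ h6 using hrep
  obtain ⟨a1, a2, a3, a4⟩ := pi_orth (i := iU) U h1 h3 h4 h5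
  have hk : Nat.card {s : S // s ≠ z} ≤ Nat.card S :=
    Nat.card_le_card_of_injective Subtype.val Subtype.val_injective
  refine ⟨∀ p, U p, inferInstance, a1, a4.trans (bd_arith hk), a2, a3, sat_pi h7,
    ⟨fun c p => Ψ p c, fun a b => funext fun p => map_mul (Ψ p) a b⟩, ?_⟩
  intro c d hcd
  by_cases hcz : c = z
  · by_contra hne
    have hdz : d ≠ z := fun h => hne (hcz.trans h.symm)
    exact hne (h6 ⟨d, hdz⟩ c (congrFun hcd ⟨d, hdz⟩))
  · exact (h6 ⟨c, hcz⟩ d (congrFun hcd ⟨c, hcz⟩).symm).symm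

theorem emb3V {V : List Idty} (hV : SameCont V) (hU : Up V ∨ UpD V) (S : Type) [Semigroup S]
    [Finite S] (hS : Nil3 S) (T : Type) [Semigroup T]
    (hr : Regular T) (hc : IdemClosed T) (φ : S →ₙ* T) (hφ : Function.Injective φ) :
    ∃ (T' : Type) (_ : Semigroup T'), Finite T' ∧ Nat.card T' ≤ bound (Nat.card S) ∧
      Regular T' ∧ IdemClosed T' ∧ Sat V T' ∧ ∃ ψ : S →ₙ* T', Function.Injective ψ := by
  rcases hU with hU | hU
  · exact EmbV_up hV hU S hS T hr hc φ hφ
  · obtain ⟨V', ha, hb, -⟩ := dual_list V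
    have hU' : Up V' := fun Ω _ M => (hb (Bd M)).2 (hU Ω M)
    have hS' : Nil3 Sᵐᵒᵖ := by
      obtain ⟨z, hz⟩ := hS
      refine ⟨MulOpposite.op z, fun a b c => MulOpposite.unop_injective ?_⟩
      show c.unop * (b.unop * a.unop) = z
      rw [← mul_assoc]
      exact hz _ _ _
    have hinj : Function.Injective (MulHom.op φ) := by
      intro a b hab
      apply MulOpposite.unop_injective
      apply hφ
      exact MulOpposite.op_injective hab
    have hfin : Finite Sᵐᵒᵖ := Finite.of_equiv S MulOpposite.opEquiv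
    obtain ⟨T', iT', c1, c2, c3, c4, c5, ψ, hψ⟩ := EmbV_up (ha hV) hU' Sᵐᵒᵖ hS' Tᵐᵒᵖ
      (op_regular hr) (op_closed hc) (MulHom.op φ) hinj
    have hfin2 : Finite T'ᵐᵒᵖ := Finite.of_equiv T' MulOpposite.opEquiv
    refine ⟨T'ᵐᵒᵖ, inferInstance, hfin2, ?_, op_regular c3, op_closed c4, (hb T').1 c5,
      ⟨fun s => MulOpposite.op (ψ (MulOpposite.op s)), ?_⟩, ?_⟩
    · have e1 : Nat.card T'ᵐᵒᵖ = Nat.card T' := Nat.card_congr MulOpposite.opEquiv.symm
      have e2 : Nat.card Sᵐᵒᵖ = Nat.card S := Nat.card_congr MulOpposite.opEquiv.symm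
      rw [e1, ← e2]
      exact c2
    · intro a b
      rw [MulOpposite.op_mul, map_mul, MulOpposite.op_mul]
    · intro a b hab
      exact MulOpposite.op_injective (hψ (MulOpposite.op_injective hab))

end Pool.Agent.H.MP_830e61_lc.N3
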