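import Pool.Agent.H.MP_830e61_lc.N3.Up

/-!
# Identities which fail in a band of labels

Suppose (for contradiction) all `(bef c w.1).dedup = (bef c w.2).dedup`, `w ∈ V`. Show `Up V`. Fix `w ∈ V`, `Ω`, `M`,
`x : ℕ → Bd M`. For a list `l` and `ω : Ω` put `val l ω = l.foldr (fun i s => (x i).1 s) ω`; then
`(FreeSemigroup.lift x w).1 ω = val (letters w) ω` (FreeSemigroup induction, `letters (w * w') = letters w ++ letters w'` by
`rfl`). Call `i` constant if `∃ c, ∀ ω, (x i).1 ω = c`; otherwise `(x i).1` fixes the complement of `M` and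
`∀ ω, (x i).1 ω = ω ∨ (x i).1 ω ∉ M`. (0) If no member of `l` is constant: `val l ω ∉ M`, or `val l ω = ω` and
`∀ j ∈ l, (x j).1 ω = ω` (induction on `l`). Hence `i ∈ l → (x i).1 (val l ω) = val l ω`. (1) So `val l.dedup ω = val l ω`
for such `l` (induction on `l`, `List.dedup_cons_of_mem`, `List.dedup_cons_of_notMem`). (2) No constant letter in `w.1`:
then none in `w.2` (`hV`); take a `c` which is a letter of neither (for instance larger than all), `bef c w.1 = letters w.1`,
same for `w.2`, use (1). (3) Otherwise let `c` be the FIRST constant letter of `w.1`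
(`letters w.1 = p ++ c :: r`, no member of `p` constant; so `c ∉ p` and `bef c w.1 = p`). `c ∈ letters w.2`, so
`letters w.2 = p' ++ c :: r'` with `p' = bef c w.2`, `c ∉ p'`; `p'.dedup = p.dedup`, so the members of `p'` are
those of `p` (`List.mem_dedup`), none is constant. `val (p ++ c :: r) ω = val p ((x c).1 ..) = val p d`, `d` the constant, the same
for `w.2`, and `val p d = val p.dedup d = val p'.dedup d = val p' d`.
-/

set_option autoImplicit false

namespace Pool.Agent.H.MP_830e61_lc.N3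

open Pool.Agent.H.MP_830e61_lc Pool.Agent.H.MP_830e61_lc.VS

section

variable {Ω : Type} {M : Set Ω}

/-- the value of a list of letters at a point -/
private def FlA_val (x : ℕ → Bd M) (l : List ℕ) (ω : Ω) : Ω := l.foldr (fun i s => (x i).1 s) ω

private theorem FlA_cons (x : ℕ → Bd M) (i : ℕ) (l : List ℕ) (ω : Ω) :
    FlA_val x (i :: l) ω = (x i).1 (FlA_val x l ω) := rfl

private theorem FlA_append (x : ℕ → Bd M) (l l' : List ℕ) (ω : Ω) :
    FlA_val x (l ++ l') ω = FlA_val x l (FlA_val x l' ω) := by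
  unfold FlA_val
  rw [List.foldr_append]

private theorem FlA_foldl (x : ℕ → Bd M) (l : List ℕ) (ω : Ω) (s : Bd M) :
    (l.foldl (fun c i => c * x i) s).1 ω = s.1 (FlA_val x l ω) := by
  induction l generalizing s with
  | nil => rfl
  | cons i l ih =>
    rw [List.foldl_cons, ih]
    rfl

private theorem FlA_lift (x : ℕ → Bd M) (w : FreeSemigroup ℕ) (ω : Ω) :
    (FreeSemigroup.lift x w).1 ω = FlA_val x (letters w) ω := by
  obtain ⟨i, l⟩ := w
  rw [FreeSemigroup.lift_mk_eq_foldl, FlA_foldl]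
  rfl

/-- the maps which are not constant -/
private def FlA_nc (f : Bd M) : Prop := ¬ ∃ c, ∀ ω, f.1 ω = c

private theorem FlA_h1 {f : Bd M} (hf : FlA_nc f) {ω : Ω} (h : ω ∉ M) : f.1 ω = ω := by
  rcases f.2 with h1 | h1
  · exact absurd h1 hf
  · exact h1.1 ω h

private theorem FlA_h2 {f : Bd M} (hf : FlA_nc f) (ω : Ω) : f.1 ω = ω ∨ f.1 ω ∉ M := by
  rcases f.2 with h1 | h1
  · exact absurd h1 hf
  · exact h1.2 ω

private theorem FlA_zero (x : ℕ → Bd M) (l : List ℕ) (hl : ∀ i ∈ l, FlA_nc (x i)) (ω : Ω) :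
    FlA_val x l ω ∉ M ∨ (FlA_val x l ω = ω ∧ ∀ j ∈ l, (x j).1 ω = ω) := by
  induction l with
  | nil => exact Or.inr ⟨rfl, fun j hj => absurd hj List.not_mem_nil⟩
  | cons i l ih =>
    rw [FlA_cons]
    have hi : FlA_nc (x i) := hl i List.mem_cons_self
    rcases ih (fun j hj => hl j (List.mem_cons_of_mem _ hj)) with h | ⟨h, h'⟩
    · left
      rw [FlA_h1 hi h]
      exact h
    · rw [h]
      rcases FlA_h2 hi ω with h2 | h2
      · right
        refine ⟨h2, fun j hj => ?_⟩
        rcases List.mem_cons.mp hj with rfl | hj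
        · exact h2
        · exact h' j hj
      · exact Or.inl h2

private theorem FlA_mem (x : ℕ → Bd M) (l : List ℕ) (hl : ∀ i ∈ l, FlA_nc (x i)) (ω : Ω) {i : ℕ}
    (hi : i ∈ l) : (x i).1 (FlA_val x l ω) = FlA_val x l ω := by
  rcases FlA_zero x l hl ω with h | ⟨h, h'⟩
  · exact FlA_h1 (hl i hi) h
  · rw [h]
    exact h' i hi

private theorem FlA_dedup (x : ℕ → Bd M) (l : List ℕ) (hl : ∀ i ∈ l, FlA_nc (x i)) (ω : Ω) :
    FlA_val x l.dedup ω = FlA_val x l ω := by
  induction l with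
  | nil => rfl
  | cons i l ih =>
    have hl' : ∀ j ∈ l, FlA_nc (x j) := fun j hj => hl j (List.mem_cons_of_mem _ hj)
    by_cases h : i ∈ l
    · rw [List.dedup_cons_of_mem h, ih hl', FlA_cons, FlA_mem x l hl' ω h]
    · rw [List.dedup_cons_of_notMem h, FlA_cons, FlA_cons, ih hl']

private theorem FlA_eq (x : ℕ → Bd M) {p p' : List ℕ} (hp : ∀ i ∈ p, FlA_nc (x i))
    (h : p.dedup = p'.dedup) (ω : Ω) : FlA_val x p ω = FlA_val x p' ω := by
  have hp' : ∀ i ∈ p', FlA_nc (x i) := by
    intro i hi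
    apply hp
    rw [← List.mem_dedup, h, List.mem_dedup]
    exact hi
  rw [← FlA_dedup x p hp, h, FlA_dedup x p' hp']

end

private theorem FlA_first {P : ℕ → Prop} (l : List ℕ) (h : ∃ i ∈ l, P i) :
    ∃ p c r, l = p ++ c :: r ∧ P c ∧ ∀ i ∈ p, ¬ P i := by
  induction l with
  | nil =>
    obtain ⟨i, hi, -⟩ := h
    exact absurd hi List.not_mem_nil
  | cons j l ih =>
    by_cases hj : P j
    · exact ⟨[], j, l, rfl, hj, fun i hi => absurd hi List.not_mem_nil⟩
    · obtain ⟨i, hi, hPi⟩ := h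
      have hil : i ∈ l := by
        rcases List.mem_cons.mp hi with rfl | hi
        · exact absurd hPi hj
        · exact hi
      obtain ⟨p, c, r, h1, h2, h3⟩ := ih ⟨i, hil, hPi⟩
      refine ⟨j :: p, c, r, by rw [h1]; rfl, h2, fun k hk => ?_⟩
      rcases List.mem_cons.mp hk with rfl | hk
      · exact hj
      · exact h3 k hk

private theorem FlA_bef {c : ℕ} {w : FreeSemigroup ℕ} {p r : List ℕ}
    (h : letters w = p ++ c :: r) (hc : ∀ i ∈ p, i ≠ c) : bef c w = p := by
  unfold bef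
  rw [h, List.takeWhile_append_of_pos (fun i hi => by simpa using hc i hi)]
  simp

private theorem FlA_bef' {c : ℕ} {w : FreeSemigroup ℕ} (hc : c ∉ letters w) :
    bef c w = letters w := by
  unfold bef
  rw [List.takeWhile_eq_self_iff]
  intro i hi
  simp only [decide_eq_true_eq]
  rintro rfl
  exact hc hi

theorem bef_ne {V : List Idty} (hV : SameCont V) (hn : ¬ Up V) :
    ∃ w ∈ V, ∃ c, (bef c w.1).dedup ≠ (bef c w.2).dedup := by
  by_contra hcon
  have hall : ∀ w ∈ V, ∀ c, (bef c w.1).dedup = (bef c w.2).dedup := by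
    intro w hw c
    by_contra h
    exact hcon ⟨w, hw, c, h⟩
  apply hn
  intro Ω _ M w hw x _
  refine Subtype.ext (funext fun ω => ?_)
  rw [FlA_lift, FlA_lift]
  by_cases hex : ∃ i ∈ letters w.1, ¬ FlA_nc (x i)
  · obtain ⟨p, c, r, h1, h2, h3⟩ := FlA_first _ hex
    have hpc : ∀ i ∈ p, i ≠ c := by
      rintro i hi rfl
      exact h3 i hi h2
    have hc2 : ∃ i ∈ letters w.2, i = c := by
      refine ⟨c, (hV w hw c).mp ?_, rfl⟩
      rw [h1]
      simp
    obtain ⟨p', c', r', h4, h5, h6⟩ := FlA_first _ hc2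
    subst h5
    have h7 := hall w hw c'
    rw [FlA_bef h1 hpc, FlA_bef h4 h6] at h7
    obtain ⟨d, hd⟩ := not_not.mp h2
    rw [h1, h4, FlA_append, FlA_append, FlA_cons, FlA_cons, hd, hd]
    exact FlA_eq x (fun i hi => not_not.mp (h3 i hi)) h7 d
  · have hnc : ∀ i ∈ letters w.1, FlA_nc (x i) := by
      intro i hi
      by_contra h
      exact hex ⟨i, hi, h⟩
    obtain ⟨c, hc⟩ := Infinite.exists_notMem_finset (letters w.1 ++ letters w.2).toFinset
    rw [List.mem_toFinset, List.mem_append, not_or] at hc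
    have h7 := hall w hw c
    rw [FlA_bef' hc.1, FlA_bef' hc.2] at h7
    exact FlA_eq x hnc h7 ω

end Pool.Agent.H.MP_830e61_lc.N3
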