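import Pool.Agent.H.MP_830e61_lc.N3.DecV
import Pool.Agent.H.MP_830e61_lc.N3.Crit

/-!
# The equivalences for the varieties which are not below
-/

set_option autoImplicit false

namespace Pool.Agent.H.MP_830e61_lc.N3

open Pool.Agent.H.MP_830e61_lc Pool.Agent.H.MP_830e61_lc.VS

private def NotB_mv (k : Fin 3) (hk : k ≠ 0) : Bd ({0} : Set (Fin 3)) :=
  ⟨fun i => if i = 0 then k else i, Or.inr ⟨fun ω hω => if_neg (fun h => hω (by rw [h]; rfl)),
    fun ω => by
      by_cases h : ω = 0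
      · right
        show (if ω = 0 then k else ω) ∉ ({0} : Set (Fin 3))
        rw [if_pos h]
        exact hk
      · left
        exact if_neg h⟩⟩

private def NotB_id : Bd ({0} : Set (Fin 3)) :=
  ⟨fun i => i, Or.inr ⟨fun _ _ => rfl, fun _ => Or.inl rfl⟩⟩

theorem not_below_nil : ¬ Below [] := by
  intro h
  have hs := (h (Bd ({0} : Set (Fin 3))) Bd.idem (fun p hp => absurd hp List.not_mem_nil)).1
  have h1 := hs (NotB_mv 1 (by decide)) NotB_id (NotB_mv 2 (by decide)) (Bd.cst 0)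
    (Bd.idem _) (Bd.idem _) (Bd.idem _) (Bd.idem _)
  have h2 : (1 : Fin 3) = 2 := congrArg (fun f : Bd ({0} : Set (Fin 3)) => f.1 0) h1
  exact absurd h2 (by decide)

theorem equivs (V : List Idty) (hV : SameCont V) (hB : ¬ Below V) (S : Type) [Semigroup S]
    [Finite S] (z : S) (hz : ∀ a b c : S, a * b * c = z) :
    ((∃ (T : Type) (_ : Semigroup T), Regular T ∧ IdemClosed T ∧
        ∃ φ : S →ₙ* T, Function.Injective φ) ↔
      ∃ (T : Type) (_ : Semigroup T), Finite T ∧ Nat.card T ≤ bound (Nat.card S) ∧ Regular T ∧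
        IdemClosed T ∧ Sat V T ∧ ∃ φ : S →ₙ* T, Function.Injective φ) ∧
    ((∃ (T : Type) (_ : Semigroup T), Regular T ∧ IdemClosed T ∧
        ∃ φ : S →ₙ* T, Function.Injective φ) ↔
      ∀ s, s ≠ z → ∃ (J : Type) (_ : Semigroup J), Regular J ∧
        (∀ e f : J, e * e = e → f * f = f → e * f = f * e) ∧ ∃ ψ : S →ₙ* J, ψ s ≠ ψ z) := by
  have hU : Up V ∨ UpD V := by
    rcases trich V hV with h | h | h
    · exact Or.inl h
    · exact Or.inr h
    · exact absurd h hB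
  refine ⟨⟨?_, ?_⟩, crit S z hz⟩
  · rintro ⟨T, iT, hr, hc, φ, hφ⟩
    exact emb3V hV hU S ⟨z, hz⟩ T hr hc φ hφ
  · rintro ⟨T, iT, -, -, hr, hc, -, φ, hφ⟩
    exact ⟨T, iT, hr, hc, φ, hφ⟩

end Pool.Agent.H.MP_830e61_lc.N3
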