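import Pool.Agent.H.MP_830e61_lc.N3.Defs

/-!
# Partial injections with labels in a band

`f m = some (y, b)`: the partial injection maps `m` to `y`, the label is `b`.
-/

set_option autoImplicit false

namespace Pool.Agent.H.MP_830e61_lc.N3

open Pool.Agent.H.MP_830e61_lc

/-- Partial injections of `X` with labels in `B`. -/
def PI (X B : Type*) : Type _ :=
  {f : X → Option (X × B) // ∀ m m' y b b', f m = some (y, b) → f m' = some (y, b') → m = m'}

variable {X B : Type*}

/-- composition, from left to right -/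
def PI.cmp [Mul B] (f g : X → Option (X × B)) (m : X) : Option (X × B) :=
  (f m).bind fun p => (g p.1).map fun q => (q.1, p.2 * q.2)

theorem PI.cmp_some [Mul B] {f g : X → Option (X × B)} {m y : X} {b : B} :
    PI.cmp f g m = some (y, b) ↔
      ∃ x c d, f m = some (x, c) ∧ g x = some (y, d) ∧ b = c * d := by
  unfold PI.cmp
  constructor
  · intro h
    obtain ⟨⟨x, c⟩, h1, h2⟩ := Option.bind_eq_some_iff.1 h
    obtain ⟨⟨y', d⟩, h3, h4⟩ := Option.map_eq_some_iff.1 h2
    rw [Prod.mk.injEq] at h4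
    obtain ⟨h5, h6⟩ := h4
    have h7 : y' = y := h5
    subst h7
    exact ⟨x, c, d, h1, h3, h6.symm⟩
  · rintro ⟨x, c, d, h1, h2, rfl⟩
    refine Option.bind_eq_some_iff.2 ⟨(x, c), h1, Option.map_eq_some_iff.2 ⟨(y, d), h2, rfl⟩⟩

private theorem PI_ext {f g : X → Option (X × B)}
    (h : ∀ m y b, f m = some (y, b) ↔ g m = some (y, b)) : f = g := by
  funext m
  refine Option.ext fun p => ?_
  obtain ⟨y, b⟩ := p
  exact h m y b

instance [Semigroup B] : Semigroup (PI X B) where
  mul f g := ⟨PI.cmp f.1 g.1, by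
    intro m m' y b b' h h'
    obtain ⟨x, c, d, h1, h2, -⟩ := PI.cmp_some.1 h
    obtain ⟨x', c', d', h1', h2', -⟩ := PI.cmp_some.1 h'
    have h3 := g.2 x x' y d d' h2 h2'
    subst h3
    exact f.2 m m' x c c' h1 h1'⟩
  mul_assoc f g h := by
    refine Subtype.ext (PI_ext fun m y b => ?_)
    show PI.cmp (PI.cmp f.1 g.1) h.1 m = some (y, b) ↔ PI.cmp f.1 (PI.cmp g.1 h.1) m = some (y, b)
    rw [PI.cmp_some, PI.cmp_some]
    constructor
    · rintro ⟨x, c, d, h1, h2, rfl⟩
      obtain ⟨x', c', d', h3, h4, rfl⟩ := PI.cmp_some.1 h1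
      exact ⟨x', c', d' * d, h3, PI.cmp_some.2 ⟨x, d', d, h4, h2, rfl⟩, mul_assoc _ _ _⟩
    · rintro ⟨x, c, d, h1, h2, rfl⟩
      obtain ⟨x', c', d', h3, h4, rfl⟩ := PI.cmp_some.1 h2
      exact ⟨x', c * c', d', PI.cmp_some.2 ⟨x, c, c', h1, h3, rfl⟩, h4, (mul_assoc _ _ _).symm⟩

theorem PI.mul_val [Semigroup B] (f g : PI X B) : (f * g).1 = PI.cmp f.1 g.1 := rfl

theorem PI.idem_iff [Semigroup B] (hB : ∀ b : B, b * b = b) (f : PI X B) :
    f * f = f ↔ ∀ m y b, f.1 m = some (y, b) → y = m := by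
  constructor
  · intro h m y b h1
    have h2 : PI.cmp f.1 f.1 m = some (y, b) := by
      rw [← PI.mul_val, h]
      exact h1
    obtain ⟨x, c, d, h3, h4, -⟩ := PI.cmp_some.1 h2
    rw [h1, Option.some.injEq, Prod.mk.injEq] at h3
    obtain ⟨h5, -⟩ := h3
    subst h5
    exact f.2 y m y d b h4 h1
  · intro h
    refine Subtype.ext (PI_ext fun m y b => ?_)
    rw [PI.mul_val, PI.cmp_some]
    constructor
    · rintro ⟨x, c, d, h1, h2, rfl⟩
      have h3 := h m x c h1
      subst h3
      rw [h1, Option.some.injEq, Prod.mk.injEq] at h2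
      obtain ⟨h4, h5⟩ := h2
      rw [h1, h4, ← h5, hB]
    · intro h1
      have h2 := h m y b h1
      subst h2
      exact ⟨y, b, b, h1, h1, (hB b).symm⟩

theorem PI.regular [Semigroup B] (hB : ∀ b : B, b * b = b) : Regular (PI X B) := by
  classical
  intro f
  have hch : ∀ y : X, ∃ g : Option (X × B), (∀ m b, g = some (m, b) → f.1 m = some (y, b)) ∧
      ∀ m b, f.1 m = some (y, b) → g = some (m, b) := by
    intro y
    by_cases h : ∃ m b, f.1 m = some (y, b)
    · obtain ⟨m, b, h⟩ := h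
      refine ⟨some (m, b), ?_, ?_⟩
      · intro m' b' h1
        rw [Option.some.injEq, Prod.mk.injEq] at h1
        rw [← h1.1, ← h1.2]
        exact h
      · intro m' b' h1
        have h2 := f.2 m m' y b b' h h1
        subst h2
        rw [h, Option.some.injEq, Prod.mk.injEq] at h1
        rw [h1.2]
    · refine ⟨none, ?_, ?_⟩
      · intro m b h1
        exact absurd h1 (by simp)
      · intro m b h1
        exact absurd ⟨m, b, h1⟩ h
  choose g hg1 hg2 using hch
  refine ⟨⟨g, ?_⟩, ?_⟩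
  · intro y y' m b b' h h'
    have h1 := hg1 y m b h
    have h2 := hg1 y' m b' h'
    rw [h1, Option.some.injEq, Prod.mk.injEq] at h2
    exact h2.1
  · refine Subtype.ext (PI_ext fun m y b => ?_)
    show PI.cmp (PI.cmp f.1 g) f.1 m = some (y, b) ↔ f.1 m = some (y, b)
    rw [PI.cmp_some]
    constructor
    · rintro ⟨x, c, d, h1, h2, rfl⟩
      obtain ⟨y', c', d', h3, h4, rfl⟩ := PI.cmp_some.1 h1
      have h5 := hg1 y' x d' h4
      have h6 := f.2 m x y' c' d' h3 h5
      subst h6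
      rw [h2, Option.some.injEq, Prod.mk.injEq] at h5
      obtain ⟨h7, h8⟩ := h5
      rw [h2, Option.some.injEq, Prod.mk.injEq] at h3
      obtain ⟨h9, h10⟩ := h3
      rw [h2, ← h8, ← h10, hB, hB]
    · intro h1
      exact ⟨m, b * b, b, PI.cmp_some.2 ⟨y, b, b, h1, hg2 y m b h1, rfl⟩, h1, by rw [hB, hB]⟩

theorem PI.closed [Semigroup B] (hB : ∀ b : B, b * b = b) : IdemClosed (PI X B) := by
  intro e f he hf
  rw [PI.idem_iff hB] at he hf
  rw [PI.idem_iff hB]
  intro m y b h
  rw [PI.mul_val] at h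
  obtain ⟨x, c, d, h1, h2, -⟩ := PI.cmp_some.1 h
  rw [hf x y d h2, he m x c h1]

instance [Finite X] [Finite B] : Finite (PI X B) := by
  unfold PI
  infer_instance

theorem PI.card [Finite X] [Finite B] :
    Nat.card (PI X B) ≤ (Nat.card X * Nat.card B + 1) ^ Nat.card X := by
  have h1 : Nat.card (PI X B) ≤ Nat.card (X → Option (X × B)) :=
    Nat.card_le_card_of_injective (fun f : PI X B => f.1) Subtype.val_injective
  rwa [Nat.card_fun, Finite.card_option, Nat.card_prod] at h1

end Pool.Agent.H.MP_830e61_lc.N3
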