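import Pool.Agent.H.MP_830e61_lc.N3.Up
import Pool.Agent.H.MP_830e61_lc.N3.PI

/-!
# Identities in the semigroup of labelled partial injections

The idempotents of `PI X B` are the `f` with `f.1 m = some (y, b) → y = m` (`PI.idem_iff`). Claim by
`FreeSemigroup` induction (`induction w with | ih1 i => .. | ih2 i w h1 h2 => ..`) for `x : ℕ → PI X B` idempotent
and `m : X`: if `(x i).1 m = some (m, b i)` for all `i ∈ letters w`
then `(FreeSemigroup.lift x w).1 m = some (m, FreeSemigroup.lift b w)` (any `b : ℕ → B` with this property on the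
letters), and if `(x i).1 m = none` for some `i ∈ letters w` then `(FreeSemigroup.lift x w).1 m = none` (use
`PI.cmp_some`, or unfold `PI.cmp`; note `letters (w * w') = letters w ++ letters w'` by `rfl`). For `Sat V`: fix `p ∈ V` and
`m`; if some letter `i` of `p.1` has `(x i).1 m = none`, it is a letter of `p.2` by `hV`, both sides are `none`.
Otherwise choose the labels `b i` (any label for the other letters, for instance that of the first letter), all `b i` are
idempotent by `hB`, use `h p hp b`.
-/

set_option autoImplicit false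

namespace Pool.Agent.H.MP_830e61_lc.N3

open Pool.Agent.H.MP_830e61_lc Pool.Agent.H.MP_830e61_lc.VS

private theorem PIV_some {X B : Type} [Semigroup B] {x : ℕ → PI X B} (m : X) (b : ℕ → B)
    (w : FreeSemigroup ℕ) (h : ∀ i ∈ letters w, (x i).1 m = some (m, b i)) :
    (FreeSemigroup.lift x w).1 m = some (m, FreeSemigroup.lift b w) := by
  induction w with
  | ih1 i => exact h i List.mem_cons_self
  | ih2 i w h1 h2 =>
    rw [map_mul, map_mul, PI.mul_val]
    refine PI.cmp_some.2 ⟨m, _, _, h1 ?_, h2 ?_, rfl⟩
    · intro j hj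
      exact h j (List.mem_append_left (letters w) hj)
    · intro j hj
      exact h j (List.mem_append_right (letters (FreeSemigroup.of i)) hj)

private theorem PIV_none {X B : Type} [Semigroup B] {x : ℕ → PI X B}
    (hi : ∀ i m y b, (x i).1 m = some (y, b) → y = m) (m : X) (w : FreeSemigroup ℕ)
    (h : ∃ i ∈ letters w, (x i).1 m = none) : (FreeSemigroup.lift x w).1 m = none := by
  induction w with
  | ih1 i =>
    obtain ⟨j, hj, he⟩ := h
    have h1 : j = i := List.mem_singleton.1 hj
    subst h1
    exact he
  | ih2 i w h1 h2 =>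
    rw [map_mul, PI.mul_val]
    obtain ⟨j, hj, he⟩ := h
    have hj' : j = i ∨ j ∈ letters w := List.mem_cons.1 hj
    have h3 : (FreeSemigroup.lift x (FreeSemigroup.of i)).1 m = (x i).1 m := rfl
    rcases he2 : (x i).1 m with _ | ⟨y, c⟩
    · unfold PI.cmp
      rw [h3, he2]
      rfl
    · have h4 := hi i m y c he2
      subst h4
      have h5 : j ∈ letters w := by
        rcases hj' with rfl | h5
        · rw [he] at he2
          exact absurd he2 (by simp)
        · exact h5
      unfold PI.cmp
      rw [h3, he2]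
      change Option.map _ ((FreeSemigroup.lift x w).1 y) = none
      rw [h2 ⟨j, h5, he⟩]
      rfl

theorem sat_PI {V : List Idty} (hV : SameCont V) {X B : Type} [Semigroup B]
    (hB : ∀ b : B, b * b = b) (h : Sat V B) : Sat V (PI X B) := by
  intro p hp x hx
  have hi : ∀ i m y b, (x i).1 m = some (y, b) → y = m := fun i => (PI.idem_iff hB (x i)).1 (hx i)
  refine Subtype.ext (funext fun m => ?_)
  by_cases hn : ∃ i ∈ letters p.1, (x i).1 m = none
  · obtain ⟨i, hi1, hi2⟩ := hn
    rw [PIV_none hi m p.1 ⟨i, hi1, hi2⟩, PIV_none hi m p.2 ⟨i, (hV p hp i).1 hi1, hi2⟩]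
  · have hs : ∀ i ∈ letters p.1, ∃ c : B, (x i).1 m = some (m, c) := by
      intro i hi1
      rcases he : (x i).1 m with _ | ⟨y, c⟩
      · exact absurd ⟨i, hi1, he⟩ hn
      · rw [hi i m y c he]
        exact ⟨c, rfl⟩
    obtain ⟨b0, -⟩ := hs p.1.head List.mem_cons_self
    have hex : ∀ i, ∃ c : B, i ∈ letters p.1 → (x i).1 m = some (m, c) := by
      intro i
      by_cases hi1 : i ∈ letters p.1
      · obtain ⟨c, hc⟩ := hs i hi1
        exact ⟨c, fun _ => hc⟩
      · exact ⟨b0, fun h1 => absurd h1 hi1⟩
    choose b hb using hex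
    rw [PIV_some m b p.1 hb, PIV_some m b p.2 fun i hi1 => hb i ((hV p hp i).2 hi1),
      h p hp b fun i => hB _]

end Pool.Agent.H.MP_830e61_lc.N3
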