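import Pool.Agent.H.MP_830e61_lc.N3.PI
import Pool.Agent.H.MP_830e61_lc.N3.Bd
import Pool.Agent.H.MP_830e61_lc.VS.Gam

/-!
# The representation at `s ≠ 0`

`ψ : S → J`, `J` inverse, `ψ s ≠ ψ z` for `s ≠ z`. `x` is an inverse of `ψ s`, `α = ψ s * x`,
`β = ψ s`; the vertices are the `m` which are `α` or `α * ψ w` and from which `β` is reachable.
-/

set_option autoImplicit false

namespace Pool.Agent.H.MP_830e61_lc.N3

open Pool.Agent.H.MP_830e61_lc Pool.Agent.H.MP_830e61_lc.VS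

private theorem Rep_canc {J : Type} [Semigroup J] (hr : Regular J)
    (hc : ∀ e f : J, e * e = e → f * f = f → e * f = f * e) {m v k v' : J}
    (h : m = m * v * k) (hv : IsInv v v') : m * (v * v') = m := by
  obtain ⟨m', hm⟩ := exists_inv hr m
  have he : (m' * m) * (m' * m) = m' * m := hm.right
  have hf : (v * v') * (v * v') = v * v' := hv.left
  have h1 : m' * m = m' * m * v * k := by
    calc m' * m = m' * (m * v * k) := by rw [← h]
      _ = m' * m * v * k := by simp only [mul_assoc]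
  have h2 : (v * v') * (m' * m) = m' * m := by
    calc (v * v') * (m' * m) = (v * v') * (m' * m * v * k) := by rw [← h1]
      _ = ((v * v') * (m' * m)) * (v * k) := by simp only [mul_assoc]
      _ = ((m' * m) * (v * v')) * (v * k) := by rw [hc _ _ hf he]
      _ = (m' * m) * (v * v' * v) * k := by simp only [mul_assoc]
      _ = m' * m * v * k := by rw [hv.1]
      _ = m' * m := h1.symm
  calc m * (v * v') = (m * m' * m) * (v * v') := by rw [hm.1]
    _ = m * ((m' * m) * (v * v')) := by simp only [mul_assoc]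
    _ = m * ((v * v') * (m' * m)) := by rw [hc _ _ he hf]
    _ = m * (m' * m) := by rw [h2]
    _ = m := by rw [← mul_assoc, hm.1]

theorem rep_emb {S J : Type} [Semigroup S] [Finite S] [Semigroup J] {z : S}
    (hz : ∀ a b c : S, a * b * c = z) (hr : Regular J)
    (hc : ∀ e f : J, e * e = e → f * f = f → e * f = f * e) (ψ : S →ₙ* J)
    (s : S) (hψ : ψ s ≠ ψ z) :
    ∃ (T : Type) (_ : Semigroup T), Finite T ∧ Nonempty T ∧ Regular T ∧ IdemClosed T ∧
      Nat.card T ≤ ((Nat.card S + 1) * Nat.card S ^ Nat.card S + 1) ^ (Nat.card S + 1) ∧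
      (∃ (X : Type) (M : Set S) (g : T →ₙ* PI X (Bd M)), Function.Injective g) ∧
      ∃ Ψ : S →ₙ* T, ∀ c, Ψ c = Ψ s → c = s := by
  classical
  obtain ⟨x, hx⟩ := exists_inv hr (ψ s)
  obtain ⟨α, hα⟩ : ∃ α, α = ψ s * x := ⟨_, rfl⟩
  have hαα : α * α = α := by rw [hα]; exact hx.left
  have hαβ : α * ψ s = ψ s := by rw [hα]; exact hx.1
  have hzl : ∀ w, z * w = z := fun w => (nil3_zero hz w).1
  have hzr : ∀ w, w * z = z := fun w => (nil3_zero hz w).2
  have F0 : α * ψ z ≠ ψ s := by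
    intro h
    have h1 : α * ψ z = ψ z := by
      calc α * ψ z = α * ψ (s * z) := by rw [hzr]
        _ = α * ψ s * ψ z := by rw [map_mul, mul_assoc]
        _ = ψ (s * z) := by rw [hαβ, map_mul]
        _ = ψ z := by rw [hzr]
    exact hψ (h.symm.trans h1)
  have F1 : ∀ a b c, α * ψ a * ψ b * ψ c = α * ψ z := by
    intro a b c
    rw [mul_assoc, mul_assoc, ← map_mul, ← map_mul, ← mul_assoc, hz]
  have F2 : ∀ a b c d, α * ψ a * ψ b * ψ c * ψ d = α * ψ z := by
    intro a b c d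
    rw [F1, mul_assoc, ← map_mul, hzl]
  -- the vertices
  obtain ⟨VX, hVX⟩ : ∃ VX : Set J, ∀ m, m ∈ VX ↔
      (m = α ∨ ∃ w, m = α * ψ w) ∧ (m = ψ s ∨ ∃ c, m * ψ c = ψ s) := ⟨{m | _}, fun m => Iff.rfl⟩
  have hαX : α ∈ VX := (hVX α).2 ⟨Or.inl rfl, Or.inr ⟨s, hαβ⟩⟩
  have hfix : ∀ m ∈ VX, α * m = m := by
    intro m hm
    rcases ((hVX m).1 hm).1 with rfl | ⟨w, rfl⟩
    · exact hαα
    · rw [← mul_assoc, hαα]
  -- an injection into `Option S`
  obtain ⟨o, ho⟩ : ∃ o : VX → Option S, Function.Injective o := by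
    have h1 : ∀ m : VX, ∃ t : Option S, m.1 = t.elim α fun w => α * ψ w := by
      rintro ⟨m, hm⟩
      rcases ((hVX m).1 hm).1 with h | ⟨w, h⟩
      · exact ⟨none, h⟩
      · exact ⟨some w, h⟩
    choose o ho using h1
    exact ⟨o, fun m m' h => Subtype.ext (by rw [ho m, ho m', h])⟩
  have hfinX : Finite VX := Finite.of_injective o ho
  -- the labels
  obtain ⟨M, hM⟩ : ∃ M : Set S, ∀ b, b ∉ M ↔ ∃ a a', b = a * a' :=
    ⟨{b | ¬ ∃ a a', b = a * a'}, fun b => not_not⟩
  let phi : S → Bd M := fun c => ⟨fun b => if α * ψ c * ψ b = ψ s then c * b else b, Or.inr (by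
    constructor
    · intro ω hω
      obtain ⟨a, a', rfl⟩ := (hM ω).1 hω
      refine if_neg ?_
      rw [map_mul, ← mul_assoc, F1]
      exact F0
    · intro ω
      by_cases h : α * ψ c * ψ ω = ψ s
      · right
        show (if α * ψ c * ψ ω = ψ s then c * ω else ω) ∉ M
        rw [if_pos h]
        exact (hM _).2 ⟨c, ω, rfl⟩
      · left
        exact if_neg h)⟩
  have hphi : ∀ c d, α * ψ c * ψ d = ψ s → (phi c).1 d = c * d := fun c d h => if_pos h
  let lab : J → S → Bd M := fun m c => if m * ψ c = ψ s then Bd.cst c else phi c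
  let fn : S → VX → Option (VX × Bd M) := fun c m =>
    if h : m.1 * ψ c ∈ VX then some (⟨m.1 * ψ c, h⟩, lab m.1 c) else none
  have hfn : ∀ (c : S) (m : VX) (h : m.1 * ψ c ∈ VX),
      fn c m = some (⟨m.1 * ψ c, h⟩, lab m.1 c) := fun c m h => dif_pos h
  have hfn0 : ∀ (c : S) (m : VX), m.1 * ψ c ∉ VX → fn c m = none := fun c m h => dif_neg h
  have hfn1 : ∀ (c : S) (m y : VX) (b : Bd M), fn c m = some (y, b) →
      m.1 * ψ c = y.1 ∧ b = lab m.1 c := by
    intro c m y b h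
    by_cases h1 : m.1 * ψ c ∈ VX
    · rw [hfn c m h1, Option.some.injEq, Prod.mk.injEq] at h
      exact ⟨congrArg Subtype.val h.1, h.2.symm⟩
    · rw [hfn0 c m h1] at h
      exact absurd h (by simp)
  have hinj : ∀ (c : S) (m m' y : VX) (b b' : Bd M), fn c m = some (y, b) →
      fn c m' = some (y, b') → m = m' := by
    intro c m m' y b b' h1 h2
    have e1 := (hfn1 c m y b h1).1
    have e2 := (hfn1 c m' y b' h2).1
    obtain ⟨v, hv1, hv2⟩ : ∃ v, m.1 * v = ψ s ∧ m'.1 * v = ψ s := by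
      rcases ((hVX y.1).1 y.2).2 with h | ⟨d, h⟩
      · exact ⟨ψ c, e1.trans h, e2.trans h⟩
      · refine ⟨ψ c * ψ d, ?_, ?_⟩
        · rw [← mul_assoc, e1, h]
        · rw [← mul_assoc, e2, h]
    obtain ⟨v', hv'⟩ := exists_inv hr v
    have key : ∀ n : VX, n.1 * v = ψ s → n.1 = ψ s * v' := by
      intro n hn
      have h3 : n.1 = n.1 * v * (x * n.1) := by
        rw [hn, ← mul_assoc, ← hα, hfix n.1 n.2]
      have h4 := Rep_canc hr hc h3 hv'
      rw [← h4, ← mul_assoc, hn]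
    exact Subtype.ext ((key m hv1).trans (key m' hv2).symm)
  -- the homomorphism
  have hmul : ∀ (c d : S) (m : VX), fn (c * d) m = PI.cmp (fn c) (fn d) m := by
    intro c d m
    have e0 : m.1 * ψ (c * d) = m.1 * ψ c * ψ d := by rw [map_mul, mul_assoc]
    by_cases h : m.1 * ψ (c * d) ∈ VX
    · have h' := (hVX _).1 h
      rw [e0] at h'
      have h1 : m.1 * ψ c ∈ VX := by
        refine (hVX _).2 ⟨?_, ?_⟩
        · right
          rcases ((hVX m.1).1 m.2).1 with h2 | ⟨w, h2⟩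
          · exact ⟨c, by rw [h2]⟩
          · exact ⟨w * c, by rw [h2, map_mul, mul_assoc]⟩
        · right
          rcases h'.2 with h2 | ⟨e, h2⟩
          · exact ⟨d, h2⟩
          · exact ⟨d * e, by rw [map_mul, ← mul_assoc, h2]⟩
      have hm : m.1 = α := by
        rcases ((hVX m.1).1 m.2).1 with h2 | ⟨w, h2⟩
        · exact h2
        · exfalso
          rcases h'.2 with h3 | ⟨e, h3⟩
          · rw [h2, F1] at h3
            exact F0 h3
          · rw [h2, F2] at h3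
            exact F0 h3
      have h2 : m.1 * ψ c * ψ d = ψ s := by
        rcases h'.2 with h3 | ⟨e, h3⟩
        · exact h3
        · exfalso
          rw [hm, F1] at h3
          exact F0 h3
      have h3 : m.1 * ψ c ≠ ψ s := by
        intro h4
        rw [h4] at h2
        have h5 : α * ψ s * ψ d * ψ d = ψ s := by rw [hαβ, h2, h2]
        rw [F1] at h5
        exact F0 h5
      have h4 : m.1 * ψ c * ψ d ∈ VX := by
        rw [← e0]
        exact h
      rw [hfn _ _ h]
      unfold PI.cmp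
      rw [hfn c m h1, Option.bind_some, hfn d ⟨m.1 * ψ c, h1⟩ h4, Option.map_some]
      congr 2
      · exact Subtype.ext e0
      · show (if m.1 * ψ (c * d) = ψ s then Bd.cst (c * d) else phi (c * d)) =
          (if m.1 * ψ c = ψ s then Bd.cst c else phi c) *
            (if m.1 * ψ c * ψ d = ψ s then Bd.cst d else phi d)
        rw [if_pos (e0.trans h2), if_neg h3, if_pos h2, Bd.mul_cst, hphi c d (by rw [← hm]; exact h2)]
    · rw [hfn0 _ _ h]
      unfold PI.cmp
      by_cases h1 : m.1 * ψ c ∈ VX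
      · rw [hfn c m h1, Option.bind_some, hfn0 d ⟨m.1 * ψ c, h1⟩ (by
          show m.1 * ψ c * ψ d ∉ VX
          rw [← e0]
          exact h), Option.map_none]
      · rw [hfn0 c m h1, Option.bind_none]
  refine ⟨PI VX (Bd M), inferInstance, inferInstance, ⟨⟨fn s, hinj s⟩⟩, PI.regular Bd.idem,
    PI.closed Bd.idem, ?_, ⟨VX, M, MulHom.id _, fun _ _ h => h⟩,
    ⟨fun c => ⟨fn c, hinj c⟩, fun c d => Subtype.ext (funext (hmul c d))⟩, ?_⟩
  · have h1 : Nat.card VX ≤ Nat.card S + 1 := by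
      have h2 := Nat.card_le_card_of_injective o ho
      rwa [Finite.card_option] at h2
    refine PI.card.trans ?_
    refine (Nat.pow_le_pow_left (Nat.add_le_add_right (Nat.mul_le_mul h1 Bd.card) 1) _).trans ?_
    exact Nat.pow_le_pow_right (Nat.succ_pos _) h1
  · intro c h
    have h1 : fn c ⟨α, hαX⟩ = fn s ⟨α, hαX⟩ := congrFun (congrArg Subtype.val h) _
    have h2 : α * ψ s ∈ VX := by
      rw [hαβ]
      exact (hVX _).2 ⟨Or.inr ⟨s, hαβ.symm⟩, Or.inl rfl⟩
    rw [hfn s ⟨α, hαX⟩ h2] at h1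
    obtain ⟨h3, h4⟩ := hfn1 c ⟨α, hαX⟩ _ _ h1
    have h5 : α * ψ c = ψ s := h3.trans hαβ
    have h6 : (if α * ψ s = ψ s then Bd.cst s else phi s) =
      (if α * ψ c = ψ s then Bd.cst c else phi c) := h4
    rw [if_pos hαβ, if_pos h5] at h6
    exact (Bd.cst_inj h6).symm

theorem rep_one {S J : Type} [Semigroup S] [Finite S] [Semigroup J] {z : S}
    (hz : ∀ a b c : S, a * b * c = z) (hr : Regular J)
    (hc : ∀ e f : J, e * e = e → f * f = f → e * f = f * e) (ψ : S →ₙ* J)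
    (s : S) (hψ : ψ s ≠ ψ z) :
    ∃ (T : Type) (_ : Semigroup T), Finite T ∧ Nonempty T ∧ Regular T ∧ IdemClosed T ∧
      Nat.card T ≤ ((Nat.card S + 1) * Nat.card S ^ Nat.card S + 1) ^ (Nat.card S + 1) ∧
      ∃ Ψ : S →ₙ* T, ∀ c, Ψ c = Ψ s → c = s := by
  obtain ⟨T, iT, h1, h2, h3, h4, h5, -, h6⟩ := rep_emb hz hr hc ψ s hψ
  exact ⟨T, iT, h1, h2, h3, h4, h5, h6⟩

theorem rep {S J : Type} [Semigroup S] [Finite S] [Semigroup J] {z : S}
    (hz : ∀ a b c : S, a * b * c = z) (hr : Regular J)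
    (hc : ∀ e f : J, e * e = e → f * f = f → e * f = f * e) (ψ : S →ₙ* J)
    (hψ : ∀ s, s ≠ z → ψ s ≠ ψ z) (s : S) (hs : s ≠ z) :
    ∃ (T : Type) (_ : Semigroup T), Finite T ∧ Nonempty T ∧ Regular T ∧ IdemClosed T ∧
      Nat.card T ≤ ((Nat.card S + 1) * Nat.card S ^ Nat.card S + 1) ^ (Nat.card S + 1) ∧
      ∃ Ψ : S →ₙ* T, ∀ c, Ψ c = Ψ s → c = s :=
  rep_one hz hr hc ψ s (hψ s hs)

end Pool.Agent.H.MP_830e61_lc.N3
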