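import Pool.Agent.H.MP_830e61_lc.N3.PIV
import Pool.Agent.H.MP_830e61_lc.N3.Rep

/-!
# The representation at `s`, with the identities
-/

set_option autoImplicit false

namespace Pool.Agent.H.MP_830e61_lc.N3

open Pool.Agent.H.MP_830e61_lc Pool.Agent.H.MP_830e61_lc.VS

theorem rep_oneV {V : List Idty} (hV : SameCont V) (hU : Up V) {S J : Type} [Semigroup S]
    [Finite S] [Semigroup J] {z : S}
    (hz : ∀ a b c : S, a * b * c = z) (hr : Regular J)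
    (hc : ∀ e f : J, e * e = e → f * f = f → e * f = f * e) (ψ : S →ₙ* J)
    (s : S) (hψ : ψ s ≠ ψ z) :
    ∃ (T : Type) (_ : Semigroup T), Finite T ∧ Nonempty T ∧ Regular T ∧ IdemClosed T ∧
      Nat.card T ≤ ((Nat.card S + 1) * Nat.card S ^ Nat.card S + 1) ^ (Nat.card S + 1) ∧
      Sat V T ∧ ∃ Ψ : S →ₙ* T, ∀ c, Ψ c = Ψ s → c = s := by
  obtain ⟨T, iT, h1, h2, h3, h4, h5, ⟨X, M, g, hg⟩, h6⟩ := rep_emb hz hr hc ψ s hψ
  exact ⟨T, iT, h1, h2, h3, h4, h5, sat_inj g hg (sat_PI hV Bd.idem (hU S M)), h6⟩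

end Pool.Agent.H.MP_830e61_lc.N3
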