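import Pool.Agent.H.MP_830e61_lc.N3.Bd
import Pool.Agent.H.MP_830e61_lc.VS.Words

/-!
# Varieties containing the bands of labels: definitions
-/

set_option autoImplicit false

namespace Pool.Agent.H.MP_830e61_lc.N3

open Pool.Agent.H.MP_830e61_lc Pool.Agent.H.MP_830e61_lc.VS

/-- The bands `Bd M` satisfy the identities. -/
def Up (V : List Idty) : Prop := ∀ (Ω : Type) [Finite Ω] (M : Set Ω), Sat V (Bd M)

/-- The duals of the bands `Bd M` satisfy the identities. -/
def UpD (V : List Idty) : Prop := ∀ (Ω : Type) [Finite Ω] (M : Set Ω), Sat V (Bd M)ᵐᵒᵖ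

/-- The idempotents act from the left on the L-class of an idempotent below them through a left
semi-normal band. -/
def LSt (T : Type*) [Semigroup T] : Prop :=
  ∀ x y z e : T, x * x = x → y * y = y → z * z = z → e * e = e → e * x * e = e → e * y * e = e →
    e * z * e = e → x * y * z * x * z * e = x * y * z * e

/-- The dual condition. -/
def RSt (T : Type*) [Semigroup T] : Prop :=
  ∀ x y z e : T, x * x = x → y * y = y → z * z = z → e * e = e → e * x * e = e → e * y * e = e →
    e * z * e = e → e * z * x * z * y * x = e * z * y * x

/-- the letters of `w` before the first `c` (the whole word if `c` does not occur) -/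
def bef (c : ℕ) (w : FreeSemigroup ℕ) : List ℕ := (letters w).takeWhile (fun i => i ≠ c)

end Pool.Agent.H.MP_830e61_lc.N3
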